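import Pool.Agent.TH569.MK.Conf

/-!
Closed affine manifolds with parallel volume and a parallel foliation with complete leaves, whose
transversal holonomy flattens the level sets of a convex function.
-/

set_option autoImplicit false

open Set Filter Topology Metric

namespace Pool.Agent.TH569.MK

open Pool.Agent.W689.Mk

section
variable {X Γ E Q : Type} [TopologicalSpace X] [T2Space X] [Group Γ] [MulAction Γ X]
  [NormedAddCommGroup E] [NormedSpace ℝ E] [FiniteDimensional ℝ E]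
  [NormedAddCommGroup Q] [InnerProductSpace ℝ Q] [FiniteDimensional ℝ Q]
  {dev : X → E} {hol : Γ →* (E ≃ᵃ[ℝ] E)}

/-- **Main theorem, abstract form.** -/
theorem af_complete (D : AffData X Γ E dev hol) [SecondCountableTopology X] [ConnectedSpace X]
    {π : E →L[ℝ] Q} (hπ : Function.Surjective π)
    (hL : ∀ (x : X) (v : E), π v = 0 → ∃ y, Ex dev x v y)
    (ρ : Γ → Q →L[ℝ] Q) (hρ : ∀ γ v, π (lin hol γ v) = ρ γ (π v))
    (N : Q → ℝ) (hNc : Continuous N) (hNconv : ∀ r, Convex ℝ {q | N q < r})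
    (hNt : ∀ q : Q, q ≠ 0 → ∀ t : ℝ, 0 ≤ t → t < 1 → N (t • q) < N q)
    (hNb : ∀ R, Bornology.IsBounded {q | N q ≤ R})
    (hAF : ∀ b : Q, b ≠ 0 → ∀ γ : ℕ → Γ, Tendsto (fun k => ‖ρ (γ k) b‖) atTop atTop →
      ∃ φ : ℕ → ℕ, StrictMono φ ∧ ∃ f : Q →L[ℝ] ℝ, f ≠ 0 ∧
        ∀ (w : ℕ → Q) (w0 : Q), Tendsto w atTop (𝓝 w0) → f w0 < 0 →
          ∀ᶠ k in atTop, N (b + ρ (γ (φ k))⁻¹ (w k)) < N b) :
    IsHomeomorph dev := by
  classical
  have hloc := D.loc
  by_cases hall : ∃ x : X, ∀ v, ∃ y, Ex dev x v y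
  · obtain ⟨x, hx⟩ := hall
    exact homeo_of_all hloc hx
  push Not at hall
  obtain ⟨x0⟩ := (inferInstance : Nonempty X)
  obtain ⟨g, hg⟩ := (π : E →ₗ[ℝ] Q).exists_rightInverse_of_surjective
    (LinearMap.range_eq_top.2 hπ)
  have hg' : ∀ q, π (g q) = q := fun q => by
    have := congrArg (fun f : Q →ₗ[ℝ] Q => f q) hg
    exact this
  have hgc : Continuous g := g.continuous_of_finiteDimensional
  -- an unseen vector with the smallest value of `N`
  let S : Set Q := {q | ¬ ∃ y, Ex dev x0 (g q) y}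
  have hScl : IsClosed S := by
    have h1 : IsOpen (g ⁻¹' {v | ∃ y, Ex dev x0 v y}) := (ex_open x0).preimage hgc
    exact h1.isClosed_compl
  obtain ⟨s0, hs0⟩ : S.Nonempty := by
    obtain ⟨v, hv⟩ := hall x0
    refine ⟨π v, fun h => ?_⟩
    obtain ⟨y, hy⟩ := ex_sat hloc hL (v := g (π v)) (w := v) (hg' _) h
    exact hv y hy
  have hcomp : IsCompact (S ∩ {q | N q ≤ N s0}) :=
    Metric.isCompact_of_isClosed_isBounded
      (hScl.inter (isClosed_le hNc continuous_const)) ((hNb _).subset inter_subset_right)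
  obtain ⟨q0, ⟨hq0, hq0s⟩, hq0m⟩ := hcomp.exists_isMinOn ⟨s0, hs0, le_refl (N s0)⟩ hNc.continuousOn
  have hmin : ∀ q ∈ S, N q0 ≤ N q := by
    intro q hq
    by_cases h1 : N q ≤ N s0
    · exact hq0m ⟨hq, h1⟩
    · exact le_trans hq0s (le_of_not_ge h1)
  obtain ⟨b, hb⟩ : ∃ b, b = g q0 := ⟨_, rfl⟩
  have hπb : π b = q0 := by rw [hb, hg']
  have hbun : ¬ ∃ y, Ex dev x0 b y := by rw [hb]; exact hq0
  have hseen : ∀ v, N (π v) < N q0 → ∃ y, Ex dev x0 v y := by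
    intro v hv
    by_contra hcon
    have h1 : π v ∈ S := fun h => hcon (ex_sat hloc hL (v := g (π v)) (w := v) (hg' _) h)
    exact absurd (hmin _ h1) (not_le.2 hv)
  have hq00 : q0 ≠ 0 := by
    intro h0
    apply hbun
    rw [hb, h0, map_zero]
    exact ⟨x0, ex_zero hloc x0⟩
  -- the section over the tube
  have hHo : IsOpen {v : E | N (π v) < N q0} := isOpen_lt (hNc.comp π.continuous) continuous_const
  have hHc : Convex ℝ {v : E | N (π v) < N q0} := by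
    have h1 : {v : E | N (π v) < N q0} = (π : E →ₗ[ℝ] Q) ⁻¹' {q | N q < N q0} := rfl
    rw [h1]
    exact (hNconv _).linear_preimage _
  obtain ⟨σ, hσ, hσE⟩ := sec_of_Ex hloc (x := x0) hHo hHc hseen
  obtain ⟨U0, hU0⟩ : ∃ U0 : Set E,
    U0 = (fun q => q - dev x0) ⁻¹' {v : E | N (π v) < N q0} := ⟨_, rfl⟩
  rw [← hU0] at hσ
  have hU0m : ∀ p, p ∈ U0 ↔ N (π (p - dev x0)) < N q0 := by
    intro p
    rw [hU0]
    rfl
  -- points converging to the unseen point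
  obtain ⟨t, htd⟩ : ∃ t : ℕ → ℝ, t = fun k : ℕ => 1 - 1 / ((k : ℝ) + 2) := ⟨_, rfl⟩
  have ht0 : ∀ k, 0 < t k := by
    intro k
    rw [htd]
    have h1 : (0 : ℝ) < (k : ℝ) + 2 := by positivity
    have h2 : 1 / ((k : ℝ) + 2) < 1 := by
      rw [div_lt_one h1]
      have : (0 : ℝ) ≤ k := Nat.cast_nonneg k
      linarith
    beta_reduce
    linarith
  have ht1 : ∀ k, t k < 1 := by
    intro k
    rw [htd]
    have h1 : (0 : ℝ) < 1 / ((k : ℝ) + 2) := by positivity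
    beta_reduce
    linarith
  have htl : Tendsto t atTop (𝓝 1) := by
    rw [htd]
    have h1 : Tendsto (fun k : ℕ => 1 / ((k : ℝ) + 2)) atTop (𝓝 0) := by
      have h2 : Tendsto (fun k : ℕ => (k : ℝ) + 2) atTop atTop :=
        tendsto_atTop_add_const_right _ _ tendsto_natCast_atTop_atTop
      exact h2.inv_tendsto_atTop.congr fun k => by rw [Pi.inv_apply, one_div]
    simpa using (tendsto_const_nhds (x := (1 : ℝ))).sub h1
  have hmem : ∀ k, dev x0 + t k • b ∈ U0 := by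
    intro k
    rw [hU0m, add_sub_cancel_left, map_smul, hπb]
    exact hNt q0 hq00 _ (ht0 k).le (ht1 k)
  obtain ⟨xs, hxs⟩ : ∃ xs : ℕ → X, xs = fun k => σ (dev x0 + t k • b) := ⟨_, rfl⟩
  have hxsd : ∀ k, dev (xs k) = dev x0 + t k • b := by
    intro k
    rw [hxs]
    exact hσ.inv _ (hmem k)
  have hxsE : ∀ k, Ex dev x0 (t k • b) (xs k) := by
    intro k
    rw [hxs]
    refine hσE _ ?_
    have := (hU0m _).1 (hmem k)
    rwa [add_sub_cancel_left] at this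
  have hxsun : ∀ k, ¬ ∃ y, Ex dev (xs k) ((1 - t k) • b) y := fun k h =>
    hbun (ex_line hloc (ht0 k).le (ht1 k).le (hxsE k) h)
  -- back to a compact set
  obtain ⟨K, hK, hKc⟩ := D.cc
  choose γ' κ hκ hγ' using fun k => hKc (xs k)
  obtain ⟨γ, hγ⟩ : ∃ γ : ℕ → Γ, γ = fun k => (γ' k)⁻¹ := ⟨_, rfl⟩
  have hγκ : ∀ k, γ k • xs k = κ k := by
    intro k
    rw [hγ, ← hγ' k]
    exact inv_smul_smul _ _
  -- a convergent subsequence
  obtain ⟨z, -, φ, hφ, hzl⟩ := hK.tendsto_subseq hκ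
  obtain ⟨ε, hε, G, s, hs, hzG, hsz, Nz, hNz, HN⟩ := local_tube hloc hπ hL z
  have hevN : ∀ᶠ k in atTop, κ (φ k) ∈ Nz := hzl.eventually_mem hNz
  have hεR : ∀ᶠ k in atTop, ε ≤ (1 - t (φ k)) * ‖ρ (γ (φ k)) q0‖ := by
    filter_upwards [hevN] with k hk
    by_contra hcon
    push Not at hcon
    obtain ⟨y, hy⟩ := (HN _ hk).2.2 ((1 - t (φ k)) • lin hol (γ (φ k)) b) (by
      rw [map_smul, norm_smul, hρ, hπb, Real.norm_eq_abs, abs_of_nonneg (by linarith [ht1 (φ k)])]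
      exact hcon)
    have h1 := D.Ex_smul (γ (φ k))⁻¹ hy
    refine hxsun (φ k) ⟨(γ (φ k))⁻¹ • y, ?_⟩
    rw [← hγκ, inv_smul_smul] at h1
    have h2 : lin hol (γ (φ k))⁻¹ ((1 - t (φ k)) • lin hol (γ (φ k)) b) = (1 - t (φ k)) • b := by
      have h3 : lin hol (γ (φ k))⁻¹ ((1 - t (φ k)) • lin hol (γ (φ k)) b) =
          (1 - t (φ k)) • lin hol (γ (φ k))⁻¹ (lin hol (γ (φ k)) b) :=
        (hol (γ (φ k))⁻¹).linear.map_smul _ _
      rw [h3, lin_inv_apply]
    rwa [h2] at h1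
  have hRtop : Tendsto (fun k => ‖ρ (γ (φ k)) q0‖) atTop atTop := by
    have h1 : Tendsto (fun k => (1 - t (φ k))⁻¹) atTop atTop := by
      apply Tendsto.inv_tendsto_nhdsGT_zero
      refine tendsto_nhdsWithin_iff.2 ⟨?_, Eventually.of_forall fun k => ?_⟩
      · have := (tendsto_const_nhds (x := (1 : ℝ))).sub (htl.comp hφ.tendsto_atTop)
        rwa [sub_self] at this
      · show 0 < 1 - t (φ k)
        linarith [ht1 (φ k)]
    refine tendsto_atTop_mono' _ ?_ (h1.const_mul_atTop hε)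
    filter_upwards [hεR] with k hk
    have h2 : 0 < 1 - t (φ k) := by linarith [ht1 (φ k)]
    rw [← div_eq_mul_inv, div_le_iff₀ h2, mul_comm]
    exact hk
  obtain ⟨φ', hφ', f, hf0, hf⟩ := hAF q0 hq00 (fun k => γ (φ k)) hRtop
  have hzl' : Tendsto (fun k => κ (φ (φ' k))) atTop (𝓝 z) := hzl.comp hφ'.tendsto_atTop
  have htl' : Tendsto (fun k => t (φ (φ' k))) atTop (𝓝 1) :=
    (htl.comp hφ.tendsto_atTop).comp hφ'.tendsto_atTop
  -- with the factors `t k`
  have hf' : ∀ (w : ℕ → Q) (w0 : Q), Tendsto w atTop (𝓝 w0) → f w0 < 0 →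
      ∀ᶠ k in atTop, N (t (φ (φ' k)) • q0 + ρ (γ (φ (φ' k)))⁻¹ (w k)) < N q0 := by
    intro w w0 hw hw0
    have h1 : Tendsto (fun k => (t (φ (φ' k)))⁻¹ • w k) atTop (𝓝 w0) := by
      have h2 := (htl'.inv₀ one_ne_zero).smul hw
      rwa [inv_one, one_smul] at h2
    filter_upwards [hf _ w0 h1 hw0] with k hk
    have h3 : t (φ (φ' k)) • q0 + ρ (γ (φ (φ' k)))⁻¹ (w k) =
        t (φ (φ' k)) • (q0 + ρ (γ (φ (φ' k)))⁻¹ ((t (φ (φ' k)))⁻¹ • w k)) := by
      rw [smul_add, map_smul, smul_smul, mul_inv_cancel₀ (ht0 _).ne', one_smul]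
    rw [h3]
    by_cases h4 : q0 + ρ (γ (φ (φ' k)))⁻¹ ((t (φ (φ' k)))⁻¹ • w k) = 0
    · rw [h4, smul_zero, ← h4]
      exact hk
    · exact (hNt _ h4 _ (ht0 _).le (ht1 _)).trans hk
  -- membership in the transported tubes
  have hmU : ∀ k w, N (t k • q0 + ρ (γ k)⁻¹ (π w)) < N q0 →
      dev (κ k) + w ∈ hol (γ k) '' U0 := by
    intro k w hw
    refine ⟨hol (γ k)⁻¹ (dev (κ k) + w), ?_, hol_apply_inv _ _⟩
    have e1 : hol (γ k)⁻¹ (dev (κ k) + w) = dev x0 + t k • b + lin hol (γ k)⁻¹ w := by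
      rw [hol_add, ← hxsd, ← D.equi, ← hγκ, inv_smul_smul]
    rw [hU0m, e1, add_assoc, add_sub_cancel_left, map_add, map_smul, hπb, hρ]
    exact hw
  -- the new base point
  obtain ⟨v', hv', hv'ε⟩ : ∃ v' : E, f (π v') < 0 ∧ ‖π v'‖ < ε := by
    obtain ⟨q1, hq1⟩ : ∃ q1, f q1 < 0 := by
      obtain ⟨q1, hq1⟩ : ∃ q1, f q1 ≠ 0 := by
        by_contra hcon
        push Not at hcon
        exact hf0 (ContinuousLinearMap.ext hcon)
      rcases lt_or_gt_of_ne hq1 with h | h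
      · exact ⟨q1, h⟩
      · exact ⟨-q1, by rw [map_neg]; linarith⟩
    have hn : (0 : ℝ) < 2 * ‖q1‖ + 1 := by positivity
    refine ⟨g ((ε / (2 * ‖q1‖ + 1)) • q1), ?_, ?_⟩
    · rw [hg', map_smul, smul_eq_mul]
      exact mul_neg_of_pos_of_neg (by positivity) hq1
    · rw [hg', norm_smul, Real.norm_eq_abs, abs_of_pos (by positivity), div_mul_eq_mul_div,
        div_lt_iff₀ hn]
      nlinarith [norm_nonneg q1]
  obtain ⟨z', hz'⟩ := (HN _ (mem_of_mem_nhds hNz)).2.2 v' hv'ε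
  have hz'd := hz'.dev_eq
  obtain ⟨U', τ, k1, k2, k3, k4, k5⟩ := hz'
  -- the half-space seen from `z'`
  have hhalf : ∀ u : E, f (π (v' + u)) < 0 → ∃ y, Ex dev z' u y := by
    intro u hu
    have hwl : Tendsto (fun k => dev z - dev (κ (φ (φ' k)))) atTop (𝓝 0) := by
      have h1 : Tendsto (fun k => dev (κ (φ (φ' k)))) atTop (𝓝 (dev z)) :=
        (hloc.continuous.tendsto z).comp hzl'
      have h2 := (tendsto_const_nhds (x := dev z)).sub h1
      rwa [sub_self] at h2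
    have hsh : ∀ v : E, Tendsto (fun k => π (dev z - dev (κ (φ (φ' k))) + v)) atTop
        (𝓝 (π v)) := by
      intro v
      have h1 := hwl.add (tendsto_const_nhds (x := v))
      rw [zero_add] at h1
      exact (π.continuous.tendsto v).comp h1
    have hA := hf' _ _ (hsh v') hv'
    have hB := hf' _ _ (hsh (v' + u)) hu
    have hτ : ∀ᶠ k in atTop, κ (φ (φ' k)) ∈ τ '' U' :=
      hzl'.eventually_mem ((k1.isOpen_image hloc k1.isOpen Subset.rfl).mem_nhds ⟨_, k2, k3⟩)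
    obtain ⟨k, kA, kB, p, hpU, hpκ⟩ := (hA.and (hB.and hτ)).exists
    have m1 := hmU (φ (φ' k)) _ kA
    have m2 := hmU (φ (φ' k)) _ kB
    have m0 : dev (κ (φ (φ' k))) ∈ hol (γ (φ (φ' k))) '' U0 := by
      have := hmU (φ (φ' k)) 0 (by
        rw [map_zero, map_zero, add_zero]
        exact hNt q0 hq00 _ (ht0 _).le (ht1 _))
      rwa [add_zero] at this
    have e1 : dev (κ (φ (φ' k))) + (dev z - dev (κ (φ (φ' k))) + v') = dev z + v' := by abel
    have e2 : dev (κ (φ (φ' k))) + (dev z - dev (κ (φ (φ' k))) + (v' + u)) = dev z + v' + u := by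
      abel
    rw [e1] at m1
    rw [e2] at m2
    have hsec := D.sec_smul (γ (φ (φ' k))) hσ
    have hpd : dev (κ (φ (φ' k))) = p := by rw [← hpκ]; exact k1.inv p hpU
    -- both sections pass through the point `κ`
    have h0 : γ (φ (φ' k)) • σ (hol (γ (φ (φ' k)))⁻¹ (dev (κ (φ (φ' k))))) = κ (φ (φ' k)) := by
      have h1 : hol (γ (φ (φ' k)))⁻¹ (dev (κ (φ (φ' k)))) = dev x0 + t (φ (φ' k)) • b := by
        rw [← hxsd, ← D.equi, ← hγκ, inv_smul_smul]
      rw [h1]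
      have h2 : σ (dev x0 + t (φ (φ' k)) • b) = xs (φ (φ' k)) := by rw [hxs]
      rw [h2, hγκ]
    have h3 := hsec.eqOn hloc k1 m0 (by rw [hpd]; exact hpU) (by
      rw [h0, hpd, hpκ]) _ m1 k4
    beta_reduce at h3
    have h4 := hsec.Ex m1 m2
    beta_reduce at h4
    rw [h3, k5] at h4
    exact ⟨_, h4⟩
  -- conclusion
  let F : E →L[ℝ] ℝ := -(f.comp π)
  have hF : ∀ v, F v = - f (π v) := fun v => rfl
  have hF0 : F ≠ 0 := by
    intro h
    have h1 := hF v'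
    rw [h] at h1
    have : (0 : E →L[ℝ] ℝ) v' = 0 := rfl
    rw [this] at h1
    linarith
  obtain ⟨y, hy⟩ := Hs.of_half hloc hF0 (a := f (π v')) (x := z') fun v hv => hhalf v (by
    rw [hF] at hv
    rw [map_add, map_add]
    linarith)
  exact half_complete D hy

end

end Pool.Agent.TH569.MK
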