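import Pool.Agent.W689.Mk.Half

/-!
Elementary facts on the set of seen vectors of an affine manifold.
-/

set_option autoImplicit false

open Set Filter Topology Metric

namespace Pool.Agent.TH569.MK

open Pool.Agent.W689.Mk

section
variable {X E : Type} [TopologicalSpace X] [T2Space X] [NormedAddCommGroup E] [NormedSpace ℝ E]
  {dev : X → E}

theorem ex_zero (hloc : IsLocalHomeomorph dev) (x : X) : Ex dev x 0 x := by
  obtain ⟨e, r, hxe, he, hr, hrt⟩ := exists_sec hloc x
  have h1 := sec_of_target e he (dev x) r hrt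
  have h2 : e.symm (dev x) = x := by rw [he]; exact e.left_inv hxe
  have := h1.Ex (q := dev x) (v := 0) (mem_ball_self hr) (by rw [add_zero]; exact mem_ball_self hr)
  rwa [add_zero, h2] at this

theorem ex_open (x : X) : IsOpen {v | ∃ y, Ex dev x v y} := by
  rw [isOpen_iff_mem_nhds]
  rintro v ⟨y, U, σ, h1, h2, h3, h4, h5⟩
  have h6 : (fun v => dev x + v) ⁻¹' U ∈ 𝓝 v :=
    (h1.isOpen.preimage (continuous_const.add continuous_id)).mem_nhds h4
  filter_upwards [h6] with w hw
  exact ⟨_, U, σ, h1, h2, h3, hw, rfl⟩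

theorem ex_smul {x : X} {v : E} {y : X} (h : Ex dev x v y) {t : ℝ} (ht : 0 ≤ t) (ht1 : t ≤ 1) :
    ∃ z, Ex dev x (t • v) z := by
  obtain ⟨U, σ, h1, h2, h3, h4, h5⟩ := h
  refine ⟨_, U, σ, h1, h2, h3, ?_, rfl⟩
  have := h1.convex h2 h4 (a := 1 - t) (b := t) (by linarith) ht (by ring)
  convert this using 1
  rw [smul_add, ← add_assoc, ← add_smul]
  simp

/-- adding a direction that is complete everywhere -/
theorem ex_add (hloc : IsLocalHomeomorph dev) {x : X} {v : E} {y : X} (h : Ex dev x v y) {l : E}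
    (hl : ∀ (y : X) (t : ℝ), ∃ z, Ex dev y (t • l) z) : ∃ z, Ex dev x (v + l) z := by
  apply Geod.ex hloc
  obtain ⟨U, σ, h1, h2, h3, h4, h5⟩ := h
  have hm : ∀ t ∈ Icc (0 : ℝ) 1, dev x + t • v ∈ U := by
    intro t ht
    have := h1.convex h2 h4 (a := 1 - t) (b := t) (by linarith [ht.2]) ht.1 (by ring)
    convert this using 1
    rw [smul_add, ← add_assoc, ← add_smul]
    simp
  obtain ⟨Y, hY⟩ : ∃ Y : ℝ → X, Y = fun t => σ (dev x + t • v) := ⟨_, rfl⟩
  have hYc : ContinuousOn Y (Icc 0 1) := by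
    rw [hY]
    exact h1.cont.comp (continuous_const.add (continuous_id.smul continuous_const)).continuousOn hm
  have hYd : ∀ t ∈ Icc (0 : ℝ) 1, dev (Y t) = dev x + t • v := by
    intro t ht
    rw [hY]
    exact h1.inv _ (hm t ht)
  choose c hc using fun t : ℝ => hl (Y t) t
  have hcd : ∀ t ∈ Icc (0 : ℝ) 1, dev (c t) = dev x + t • (v + l) := by
    intro t ht
    rw [(hc t).dev_eq, hYd t ht, smul_add, add_assoc]
  refine ⟨c, fun t0 ht0 => ?_, ?_, hcd⟩
  · obtain ⟨U', τ, g1, g2, g3, g4, g5⟩ := hc t0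
    have k1 : τ '' U' ∈ 𝓝 (Y t0) :=
      (g1.isOpen_image hloc g1.isOpen Subset.rfl).mem_nhds ⟨_, g2, g3⟩
    have k2 : ∀ᶠ t in 𝓝[Icc 0 1] t0, Y t ∈ τ '' U' := (hYc t0 ht0) k1
    have k3 : ContinuousWithinAt (fun t => dev (Y t) + t • l) (Icc 0 1) t0 :=
      (hloc.continuous.continuousAt.comp_continuousWithinAt (hYc t0 ht0)).add
        (continuous_id.smul continuous_const).continuousWithinAt
    have k4 : ∀ᶠ t in 𝓝[Icc 0 1] t0, dev (Y t) + t • l ∈ U' :=
      k3 (g1.isOpen.mem_nhds g4)
    have k5 : ContinuousAt τ (dev (Y t0) + t0 • l) :=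
      (g1.cont _ g4).continuousAt (g1.isOpen.mem_nhds g4)
    have k6 : ∀ t, Y t ∈ τ '' U' → dev (Y t) + t • l ∈ U' → c t = τ (dev (Y t) + t • l) := by
      rintro t ⟨q, hq, hqt⟩ ht2
      have e1 : dev (Y t) = q := by rw [← hqt]; exact g1.inv q hq
      refine (hc t).unique hloc ⟨U', τ, g1, by rw [e1]; exact hq, by rw [e1]; exact hqt, ht2, rfl⟩
    have k7 : ContinuousWithinAt (fun t => τ (dev (Y t) + t • l)) (Icc 0 1) t0 :=
      ContinuousAt.comp_continuousWithinAt (f := fun t => dev (Y t) + t • l) k5 k3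
    refine k7.congr_of_eventuallyEq ?_ ?_
    · filter_upwards [k2, k4] with t ht1 ht2
      exact k6 t ht1 ht2
    · exact k6 t0 ⟨_, g2, g3⟩ g4
  · have e0 : Y 0 = x := by rw [hY]; simpa using h3
    have h6 := hc 0
    rw [zero_smul, e0] at h6
    exact h6.unique hloc (ex_zero hloc x)

/-- two steps along the same line -/
theorem ex_line (hloc : IsLocalHomeomorph dev) {x y : X} {b : E} {t : ℝ} (ht : 0 ≤ t) (ht1 : t ≤ 1)
    (h : Ex dev x (t • b) y) (h' : ∃ z, Ex dev y ((1 - t) • b) z) : ∃ z, Ex dev x b z := by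
  apply Geod.ex hloc
  obtain ⟨z, h'⟩ := h'
  have hd := h.dev_eq
  obtain ⟨U, σ, h1, h2, h3, h4, h5⟩ := h
  obtain ⟨U', τ, g1, g2, g3, g4, g5⟩ := h'
  rw [hd] at g2 g3 g4
  have e1 : dev x + t • b + (1 - t) • b = dev x + b := by
    rw [add_assoc, ← add_smul]; simp
  rw [e1] at g4
  have hm : ∀ s ∈ Icc (0 : ℝ) t, dev x + s • b ∈ U := by
    intro s hs
    rcases eq_or_lt_of_le ht with h0 | h0
    · have : s = 0 := le_antisymm (by rw [h0]; exact hs.2) hs.1
      rw [this, zero_smul, add_zero]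
      exact h2
    · have := h1.convex h2 h4 (a := 1 - s / t) (b := s / t)
        (by have := (div_le_one h0).2 hs.2; linarith) (div_nonneg hs.1 ht) (by ring)
      convert this using 1
      rw [smul_add, ← add_assoc, ← add_smul, smul_smul, div_mul_cancel₀ _ h0.ne']
      simp
  have hm' : ∀ s ∈ Icc t (1 : ℝ), dev x + s • b ∈ U' := by
    intro s hs
    rcases eq_or_lt_of_le ht1 with h0 | h0
    · have : s = t := le_antisymm (by rw [h0]; exact hs.2) hs.1
      rw [this]
      exact g2
    · have h10 : 0 < 1 - t := by linarith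
      have := g1.convex g2 g4 (a := 1 - (s - t) / (1 - t)) (b := (s - t) / (1 - t))
        (by have := (div_le_one h10).2 (show s - t ≤ 1 - t by linarith [hs.2]); linarith)
        (div_nonneg (by linarith [hs.1]) h10.le) (by ring)
      convert this using 1
      rw [smul_add, smul_add, add_add_add_comm, ← add_smul, smul_smul, ← add_smul]
      have e2 : 1 - (s - t) / (1 - t) + (s - t) / (1 - t) = 1 := by ring
      have e3 : (1 - (s - t) / (1 - t)) * t + (s - t) / (1 - t) = s := by
        field_simp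
        ring
      rw [e2, e3, one_smul]
  have ejoin : σ (dev x + t • b) = τ (dev x + t • b) := by rw [h5, g3]
  refine ⟨fun s => if s ≤ t then σ (dev x + s • b) else τ (dev x + s • b), ?_, ?_, ?_⟩
  · have hu : Icc (0 : ℝ) 1 = Icc 0 t ∪ Icc t 1 := (Icc_union_Icc_eq_Icc ht ht1).symm
    rw [hu]
    refine ContinuousOn.union_of_isClosed ?_ ?_ isClosed_Icc isClosed_Icc
    · refine (h1.cont.comp (g := σ) (f := fun s : ℝ => dev x + s • b)
        (continuous_const.add (continuous_id.smul continuous_const)).continuousOn hm).congr ?_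
      intro s hs
      exact if_pos hs.2
    · refine (g1.cont.comp (g := τ) (f := fun s : ℝ => dev x + s • b)
        (continuous_const.add (continuous_id.smul continuous_const)).continuousOn hm').congr ?_
      intro s hs
      by_cases hst : s ≤ t
      · have : s = t := le_antisymm hst hs.1
        rw [this]
        beta_reduce
        rw [if_pos le_rfl]
        exact ejoin
      · exact if_neg hst
  · beta_reduce
    rw [if_pos ht, zero_smul, add_zero, h3]
  · intro s hs
    beta_reduce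
    by_cases hst : s ≤ t
    · rw [if_pos hst]
      exact h1.inv _ (hm s ⟨hs.1, hst⟩)
    · rw [if_neg hst]
      exact g1.inv _ (hm' s ⟨le_of_not_ge hst, hs.2⟩)

end

end Pool.Agent.TH569.MK
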