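import Pool.Agent.TH569.MK.Basic

/-!
Directions of completeness of a closed affine manifold: extension by directions on which the linear
holonomy is bounded modulo complete directions.
-/

set_option autoImplicit false

open Set Filter Topology Metric

namespace Pool.Agent.TH569.MK

open Pool.Agent.W689.Mk

section
variable {X Γ E : Type} [TopologicalSpace X] [T2Space X] [Group Γ] [MulAction Γ X]
  [NormedAddCommGroup E] [NormedSpace ℝ E] [FiniteDimensional ℝ E]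
  {dev : X → E} {hol : Γ →* (E ≃ᵃ[ℝ] E)}

omit [FiniteDimensional ℝ E] in
/-- near a point, all vectors that are small modulo complete directions are seen -/
theorem local_ball (hloc : IsLocalHomeomorph dev) {S : Submodule ℝ E}
    (hS : ∀ (x : X), ∀ v ∈ S, ∃ y, Ex dev x v y) (z : X) :
    ∃ r > 0, ∃ N ∈ 𝓝 z, ∀ y ∈ N, ∀ v, ∀ w ∈ S, ‖v - w‖ < r → ∃ y', Ex dev y v y' := by
  obtain ⟨e, r, hxe, he, hr, hrt⟩ := exists_sec hloc z
  have hsec := sec_of_target e he (dev z) r hrt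
  have hez : e.symm (dev z) = z := by rw [he]; exact e.left_inv hxe
  refine ⟨r / 2, half_pos hr, e.symm '' ball (dev z) (r / 2), ?_, ?_⟩
  · refine (hsec.isOpen_image hloc isOpen_ball (ball_subset_ball (by linarith))).mem_nhds
      ⟨dev z, mem_ball_self (half_pos hr), hez⟩
  · rintro _ ⟨p, hp, rfl⟩ v w hw hvw
    have hp' : p ∈ ball (dev z) r := ball_subset_ball (by linarith) hp
    have h1 : ∃ y', Ex dev (e.symm p) (v - w) y' := by
      refine ⟨_, hsec.Ex hp' ?_⟩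
      rw [mem_ball, dist_eq_norm] at hp ⊢
      calc ‖p + (v - w) - dev z‖ = ‖(p - dev z) + (v - w)‖ := by congr 1; abel
        _ ≤ ‖p - dev z‖ + ‖v - w‖ := norm_add_le _ _
        _ < r := by linarith
    obtain ⟨y', hy'⟩ := h1
    have h2 := ex_add hloc hy' (l := w) fun y t => hS y _ (S.smul_mem t hw)
    rwa [sub_add_cancel] at h2

omit [FiniteDimensional ℝ E] in
/-- the first unseen vector in a direction -/
theorem first_unseen (hloc : IsLocalHomeomorph dev) {x : X} {v : E} (hv : ¬ ∃ y, Ex dev x v y) :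
    ∃ s : ℝ, 0 < s ∧ s ≤ 1 ∧ (¬ ∃ y, Ex dev x (s • v) y) ∧
      ∀ t : ℝ, 0 ≤ t → t < 1 → ∃ y, Ex dev x (t • s • v) y := by
  obtain ⟨A, hA⟩ : ∃ A : Set ℝ, A = {s | 0 ≤ s ∧ ¬ ∃ y, Ex dev x (s • v) y} := ⟨_, rfl⟩
  have hcl : IsClosed A := by
    have h1 : IsOpen ((fun s : ℝ => s • v) ⁻¹' {v | ∃ y, Ex dev x v y}) :=
      (ex_open x).preimage (continuous_id.smul continuous_const)
    have h2 : A = Ici 0 ∩ ((fun s : ℝ => s • v) ⁻¹' {v | ∃ y, Ex dev x v y})ᶜ := by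
      rw [hA]
      rfl
    rw [h2]
    exact isClosed_Ici.inter h1.isClosed_compl
  have h1A : (1 : ℝ) ∈ A := by
    rw [hA]
    exact ⟨zero_le_one, by rwa [one_smul]⟩
  have hbd : BddBelow A := ⟨0, fun s hs => by rw [hA] at hs; exact hs.1⟩
  have hs := hcl.csInf_mem ⟨1, h1A⟩ hbd
  have hs1 : sInf A ≤ 1 := csInf_le hbd h1A
  have hsA : 0 ≤ sInf A ∧ ¬ ∃ y, Ex dev x (sInf A • v) y := by
    have h := hs
    rw [hA] at h ⊢
    exact h
  have hs0 : 0 < sInf A := by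
    rcases hsA.1.lt_or_eq with h | h
    · exact h
    · exfalso
      apply hsA.2
      rw [← h, zero_smul]
      exact ⟨x, ex_zero hloc x⟩
  refine ⟨sInf A, hs0, hs1, hsA.2, fun t ht0 ht1 => ?_⟩
  by_contra hcon
  rw [smul_smul] at hcon
  have h3 : t * sInf A ∈ A := by
    have h5 : ∀ r : ℝ, 0 ≤ r → (¬ ∃ y, Ex dev x (r • v) y) → r ∈ A := by
      intro r h6 h7
      rw [hA]
      exact ⟨h6, h7⟩
    exact h5 _ (mul_nonneg ht0 hs0.le) hcon
  have h4 := csInf_le hbd h3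
  nlinarith

/-- directions on which the linear holonomy is bounded modulo complete directions are complete -/
theorem chain_step (D : AffData X Γ E dev hol) [SecondCountableTopology X] {S F : Submodule ℝ E}
    (hS : ∀ (x : X), ∀ v ∈ S, ∃ y, Ex dev x v y)
    (hC : ∃ C : ℝ, ∀ γ : Γ, ∀ v ∈ F, ∃ w ∈ S, ‖lin hol γ v - w‖ ≤ C * ‖v‖) :
    ∀ (x : X), ∀ v ∈ F, ∃ y, Ex dev x v y := by
  have hloc := D.loc
  obtain ⟨C, hC⟩ := hC
  intro x0 v hv
  by_contra hcon
  obtain ⟨s, hs0, -, hun, hse⟩ := first_unseen hloc hcon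
  obtain ⟨b, hb⟩ : ∃ b, b = s • v := ⟨_, rfl⟩
  rw [← hb] at hun
  have hbF : b ∈ F := by rw [hb]; exact F.smul_mem _ hv
  obtain ⟨t, htd⟩ : ∃ t : ℕ → ℝ, t = fun k : ℕ => 1 - 1 / ((k : ℝ) + 2) := ⟨_, rfl⟩
  have ht0 : ∀ k, 0 < t k := by
    intro k
    rw [htd]
    have h1 : (0 : ℝ) < (k : ℝ) + 2 := by positivity
    have h2 : 1 / ((k : ℝ) + 2) < 1 := by
      rw [div_lt_one h1]
      have : (0 : ℝ) ≤ k := Nat.cast_nonneg k
      linarith
    beta_reduce
    linarith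
  have ht1 : ∀ k, t k < 1 := by
    intro k
    rw [htd]
    have h1 : (0 : ℝ) < 1 / ((k : ℝ) + 2) := by positivity
    beta_reduce
    linarith
  have htl : Tendsto t atTop (𝓝 1) := by
    rw [htd]
    have h1 : Tendsto (fun k : ℕ => 1 / ((k : ℝ) + 2)) atTop (𝓝 0) := by
      have h2 : Tendsto (fun k : ℕ => (k : ℝ) + 2) atTop atTop :=
        tendsto_atTop_add_const_right _ _ tendsto_natCast_atTop_atTop
      exact h2.inv_tendsto_atTop.congr fun k => by rw [Pi.inv_apply, one_div]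
    simpa using (tendsto_const_nhds (x := (1 : ℝ))).sub h1
  choose xs hxsE using fun k => hse (t k) (ht0 k).le (ht1 k)
  have hxsun : ∀ k, ¬ ∃ y, Ex dev (xs k) ((1 - t k) • b) y := fun k h =>
    hun (ex_line hloc (ht0 k).le (ht1 k).le (by rw [hb]; exact hxsE k) h)
  obtain ⟨K, hK, hKc⟩ := D.cc
  choose γ' κ hκ hγ' using fun k => hKc (xs k)
  obtain ⟨z, -, φ, hφ, hzl⟩ := hK.tendsto_subseq hκ
  obtain ⟨r, hr, N, hN, HN⟩ := local_ball hloc hS z
  have h1 : ∀ᶠ k in atTop, κ (φ k) ∈ N := hzl.eventually_mem hN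
  have h2 : ∀ᶠ k in atTop, (1 - t (φ k)) * (C * ‖b‖) < r := by
    have h3 : Tendsto (fun k => (1 - t (φ k)) * (C * ‖b‖)) atTop (𝓝 ((1 - 1) * (C * ‖b‖))) :=
      ((tendsto_const_nhds (x := (1 : ℝ))).sub (htl.comp hφ.tendsto_atTop)).mul_const _
    rw [sub_self, zero_mul] at h3
    exact h3.eventually_lt_const hr
  obtain ⟨k, k1, k2⟩ := (h1.and h2).exists
  obtain ⟨w, hw, hwn⟩ := hC (γ' (φ k))⁻¹ b hbF
  have h1t : 0 ≤ 1 - t (φ k) := by linarith [ht1 (φ k)]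
  obtain ⟨y, hy⟩ := HN _ k1 ((1 - t (φ k)) • lin hol (γ' (φ k))⁻¹ b) ((1 - t (φ k)) • w)
    (S.smul_mem _ hw) (by
      rw [← smul_sub, norm_smul, Real.norm_eq_abs, abs_of_nonneg h1t]
      exact lt_of_le_of_lt (mul_le_mul_of_nonneg_left hwn h1t) k2)
  have h4 := D.Ex_smul (γ' (φ k)) hy
  refine hxsun (φ k) ⟨(γ' (φ k)) • y, ?_⟩
  rw [hγ'] at h4
  have h5 : lin hol (γ' (φ k)) ((1 - t (φ k)) • lin hol (γ' (φ k))⁻¹ b) = (1 - t (φ k)) • b := by
    have h6 : lin hol (γ' (φ k)) ((1 - t (φ k)) • lin hol (γ' (φ k))⁻¹ b) =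
        (1 - t (φ k)) • lin hol (γ' (φ k)) (lin hol (γ' (φ k))⁻¹ b) :=
      (hol (γ' (φ k))).linear.map_smul _ _
    rw [h6]
    congr 1
    have := lin_inv_apply (hol := hol) (γ' (φ k))⁻¹ b
    rwa [inv_inv] at this
  rwa [h5] at h4

/-- completeness propagates along a chain of subspaces with bounded quotients -/
theorem chain_complete (D : AffData X Γ E dev hol) [SecondCountableTopology X] (S : ℕ → Submodule ℝ E) (m : ℕ)
    (hS : ∀ (x : X), ∀ v ∈ S 0, ∃ y, Ex dev x v y)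
    (hC : ∀ i < m, ∃ C : ℝ, ∀ γ : Γ, ∀ v ∈ S (i + 1), ∃ w ∈ S i, ‖lin hol γ v - w‖ ≤ C * ‖v‖) :
    ∀ (x : X), ∀ v ∈ S m, ∃ y, Ex dev x v y := by
  have key : ∀ i ≤ m, ∀ (x : X), ∀ v ∈ S i, ∃ y, Ex dev x v y := by
    intro i
    induction i with
    | zero => exact fun _ => hS
    | succ i ih => exact fun hi => chain_step D (ih (by omega)) (hC i (by omega))
  exact key m le_rfl

end

end Pool.Agent.TH569.MK
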