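import Mathlib

/-!
Balls whose boundary stays near a point and whose radius goes to infinity fill a half-space.
-/

set_option autoImplicit false

open Filter Topology

namespace Pool.Agent.TH569.MK

theorem ball_fill {Q : Type} [NormedAddCommGroup Q] [InnerProductSpace ℝ Q] {ε : ℝ} (hε : 0 < ε)
    {t R : ℕ → ℝ} {u q : ℕ → Q} {u0 q0 : Q} (ht0 : ∀ k, 0 ≤ t k) (ht1 : ∀ k, t k < 1)
    (ht : Tendsto t atTop (𝓝 1)) (hR : ∀ᶠ k in atTop, ε ≤ (1 - t k) * R k)
    (hu1 : ∀ k, ‖u k‖ = 1) (hu : Tendsto u atTop (𝓝 u0)) (hq : Tendsto q atTop (𝓝 q0))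
    (hlt : inner ℝ u0 q0 < ε / 2) : ∀ᶠ k in atTop, ‖(t k * R k) • u k + q k‖ < R k := by
  have h1 : Tendsto (fun k => inner ℝ (u k) (q k)) atTop (𝓝 (inner ℝ u0 q0)) := hu.inner hq
  have h2 : ∀ᶠ k in atTop, inner ℝ (u k) (q k) < ε / 2 := h1.eventually_lt_const hlt
  have h3 : ∀ᶠ k in atTop, ‖q k‖ < ‖q0‖ + 1 := hq.norm.eventually_lt_const (by linarith)
  have h4 : ∀ᶠ k in atTop, 1 / 2 < t k := ht.eventually_const_lt (by norm_num)
  obtain ⟨M, hM⟩ : ∃ M : ℝ, M = ‖q0‖ + 1 := ⟨_, rfl⟩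
  have hM0 : 0 < M := by rw [hM]; positivity
  have h5 : ∀ᶠ k in atTop, 1 - t k < ε ^ 2 / (4 * M ^ 2) := by
    have : Tendsto (fun k => 1 - t k) atTop (𝓝 (1 - 1)) := tendsto_const_nhds.sub ht
    rw [sub_self] at this
    exact this.eventually_lt_const (by positivity)
  filter_upwards [hR, h2, h3, h4, h5] with k k1 k2 k3 k4 k5
  have hs : 0 < 1 - t k := by linarith [ht1 k]
  have hR0 : 0 < R k := by
    by_contra hcon
    push Not at hcon
    have : (1 - t k) * R k ≤ 0 := mul_nonpos_of_nonneg_of_nonpos hs.le hcon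
    linarith
  rw [← hM] at k3
  -- the radius is large
  have hbig : 2 * M ^ 2 < ε * R k := by
    rw [lt_div_iff₀ (by positivity)] at k5
    have k6 : ε * ((1 - t k) * (4 * M ^ 2)) < ε * ((1 - t k) * R k) * ε := by
      have : ε * ((1 - t k) * (4 * M ^ 2)) < ε * ε ^ 2 := by gcongr
      have h7 : ε * ε ^ 2 ≤ ε * ((1 - t k) * R k) * ε := by
        have : ε * ε ^ 2 = ε * ε * ε := by ring
        rw [this]
        gcongr
      linarith
    have k7 : (ε * (1 - t k)) * (4 * M ^ 2) < (ε * (1 - t k)) * (ε * R k) := by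
      calc (ε * (1 - t k)) * (4 * M ^ 2) = ε * ((1 - t k) * (4 * M ^ 2)) := by ring
        _ < ε * ((1 - t k) * R k) * ε := k6
        _ = (ε * (1 - t k)) * (ε * R k) := by ring
    have k8 := lt_of_mul_lt_mul_left k7 (by positivity)
    nlinarith [sq_nonneg M]
  have e1 : ‖(t k * R k) • u k + q k‖ ^ 2 =
      (t k * R k) ^ 2 + 2 * (t k * R k) * inner ℝ (u k) (q k) + ‖q k‖ ^ 2 := by
    rw [norm_add_sq_real, norm_smul, hu1, mul_one, Real.norm_eq_abs, sq_abs, real_inner_smul_left]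
    ring
  have e2 : 2 * (t k * R k) * inner ℝ (u k) (q k) ≤ ε * (t k * R k) := by
    have : 0 ≤ t k * R k := mul_nonneg (ht0 k) hR0.le
    nlinarith
  have e3 : ‖q k‖ ^ 2 < M ^ 2 := by
    have := norm_nonneg (q k)
    nlinarith
  have e4 : ε * R k * (1 + t k) ≤ R k ^ 2 - (t k * R k) ^ 2 := by
    have : R k ^ 2 - (t k * R k) ^ 2 = ((1 - t k) * R k) * (R k * (1 + t k)) := by ring
    rw [this]
    have h8 : 0 ≤ R k * (1 + t k) := mul_nonneg hR0.le (by linarith [ht0 k])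
    calc ε * R k * (1 + t k) = ε * (R k * (1 + t k)) := by ring
      _ ≤ _ := mul_le_mul_of_nonneg_right k1 h8
  have e5 : ‖(t k * R k) • u k + q k‖ ^ 2 < R k ^ 2 := by
    rw [e1]
    nlinarith [mul_pos hε hR0]
  exact lt_of_pow_lt_pow_left₀ 2 hR0.le e5

end Pool.Agent.TH569.MK
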