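import Pool.Agent.TH569.MK.Basic
import Pool.Agent.TH569.MK.Lim

/-!
Closed affine manifolds with parallel volume and a parallel foliation with complete leaves, on whose
normal bundle the linear holonomy acts by similarities.
-/

set_option autoImplicit false

open Set Filter Topology Metric

namespace Pool.Agent.TH569.MK

open Pool.Agent.W689.Mk

section
variable {X Γ E Q : Type} [TopologicalSpace X] [T2Space X] [Group Γ] [MulAction Γ X]
  [NormedAddCommGroup E] [NormedSpace ℝ E] [FiniteDimensional ℝ E]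
  [NormedAddCommGroup Q] [InnerProductSpace ℝ Q] [FiniteDimensional ℝ Q]
  {dev : X → E} {hol : Γ →* (E ≃ᵃ[ℝ] E)}

/-- the seen set is saturated -/
theorem ex_sat (hloc : IsLocalHomeomorph dev) {π : E →L[ℝ] Q}
    (hL : ∀ (x : X) (v : E), π v = 0 → ∃ y, Ex dev x v y) {x : X} {v w : E}
    (hvw : π v = π w) (h : ∃ y, Ex dev x v y) : ∃ y, Ex dev x w y := by
  obtain ⟨y, h⟩ := h
  have h1 := ex_add hloc h (l := w - v) fun y t => hL y _ (by
    rw [map_smul, map_sub, hvw, sub_self, smul_zero])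
  rwa [add_sub_cancel] at h1

/-- near a point, all vectors that are small modulo the foliation are seen -/
theorem local_tube (hloc : IsLocalHomeomorph dev) {π : E →L[ℝ] Q} (hπ : Function.Surjective π)
    (hL : ∀ (x : X) (v : E), π v = 0 → ∃ y, Ex dev x v y) (z : X) :
    ∃ ε > 0, ∃ G : Set E, ∃ s : E → X, Sec dev G s ∧ dev z ∈ G ∧ s (dev z) = z ∧
      ∃ N ∈ 𝓝 z, ∀ y ∈ N, dev y ∈ G ∧ s (dev y) = y ∧
        ∀ v, ‖π v‖ < ε → ∃ y', Ex dev y v y' := by
  obtain ⟨e, r, hxe, he, hr, hrt⟩ := exists_sec hloc z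
  have hsec := sec_of_target e he (dev z) r hrt
  have hez : e.symm (dev z) = z := by rw [he]; exact e.left_inv hxe
  obtain ⟨g, hg⟩ := (π : E →ₗ[ℝ] Q).exists_rightInverse_of_surjective
    (LinearMap.range_eq_top.2 hπ)
  have hg' : ∀ q, π (g q) = q := fun q => by
    have := congrArg (fun f : Q →ₗ[ℝ] Q => f q) hg
    exact this
  have hgc : Continuous g := g.continuous_of_finiteDimensional
  obtain ⟨ε, hε, hεg⟩ : ∃ ε > 0, ∀ q : Q, ‖q‖ < ε → ‖g q‖ < r / 2 := by
    have h1 : ∀ᶠ q in 𝓝 (0 : Q), ‖g q‖ < r / 2 := by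
      have h2 : Tendsto (fun q => ‖g q‖) (𝓝 0) (𝓝 ‖g 0‖) := hgc.norm.continuousAt
      rw [map_zero, norm_zero] at h2
      exact h2.eventually_lt_const (half_pos hr)
    obtain ⟨ε, hε, H⟩ := Metric.eventually_nhds_iff.1 h1
    exact ⟨ε, hε, fun q hq => H (by rwa [dist_zero_right])⟩
  refine ⟨ε, hε, _, e.symm, hsec, mem_ball_self hr, hez, e.symm '' ball (dev z) (r / 2), ?_, ?_⟩
  · refine (hsec.isOpen_image hloc isOpen_ball (ball_subset_ball (by linarith))).mem_nhds
      ⟨dev z, mem_ball_self (half_pos hr), hez⟩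
  · rintro _ ⟨p, hp, rfl⟩
    have hp' : p ∈ ball (dev z) r := ball_subset_ball (by linarith) hp
    have hdp : dev (e.symm p) = p := hsec.inv p hp'
    refine ⟨by rw [hdp]; exact hp', by rw [hdp], fun v hv => ?_⟩
    refine ex_sat hloc hL (v := g (π v)) (hg' _) ⟨_, hsec.Ex hp' ?_⟩
    rw [mem_ball, dist_eq_norm] at hp ⊢
    have h3 := hεg _ hv
    calc ‖p + g (π v) - dev z‖ = ‖(p - dev z) + g (π v)‖ := by congr 1; abel
      _ ≤ ‖p - dev z‖ + ‖g (π v)‖ := norm_add_le _ _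
      _ < r := by linarith

/-- **Main theorem.** -/
theorem conf_complete (D : AffData X Γ E dev hol) [SecondCountableTopology X] [ConnectedSpace X]
    {π : E →L[ℝ] Q} (hπ : Function.Surjective π)
    (hL : ∀ (x : X) (v : E), π v = 0 → ∃ y, Ex dev x v y)
    (hsim : ∀ γ : Γ, ∃ c : ℝ, 0 < c ∧ ∀ v : E, ‖π (lin hol γ v)‖ = c * ‖π v‖) :
    IsHomeomorph dev := by
  classical
  have hloc := D.loc
  by_cases hall : ∃ x : X, ∀ v, ∃ y, Ex dev x v y
  · obtain ⟨x, hx⟩ := hall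
    exact homeo_of_all hloc hx
  push Not at hall
  obtain ⟨x0⟩ := (inferInstance : Nonempty X)
  obtain ⟨g, hg⟩ := (π : E →ₗ[ℝ] Q).exists_rightInverse_of_surjective
    (LinearMap.range_eq_top.2 hπ)
  have hg' : ∀ q, π (g q) = q := fun q => by
    have := congrArg (fun f : Q →ₗ[ℝ] Q => f q) hg
    exact this
  have hgc : Continuous g := g.continuous_of_finiteDimensional
  -- a nearest unseen vector
  let S : Set Q := {q | ¬ ∃ y, Ex dev x0 (g q) y}
  have hScl : IsClosed S := by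
    have h1 : IsOpen (g ⁻¹' {v | ∃ y, Ex dev x0 v y}) := (ex_open x0).preimage hgc
    exact h1.isClosed_compl
  have hSne : S.Nonempty := by
    obtain ⟨v, hv⟩ := hall x0
    refine ⟨π v, fun h => ?_⟩
    obtain ⟨y, hy⟩ := ex_sat hloc hL (v := g (π v)) (w := v) (hg' _) h
    exact hv y hy
  obtain ⟨q0, hq0, hq0d⟩ := hScl.exists_infDist_eq_dist hSne 0
  obtain ⟨b, hb⟩ : ∃ b, b = g q0 := ⟨_, rfl⟩
  obtain ⟨r, hr⟩ : ∃ r : ℝ, r = ‖q0‖ := ⟨_, rfl⟩
  have hπb : π b = q0 := by rw [hb, hg']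
  have hbun : ¬ ∃ y, Ex dev x0 b y := by rw [hb]; exact hq0
  have hseen : ∀ v, ‖π v‖ < r → ∃ y, Ex dev x0 v y := by
    intro v hv
    by_contra hcon
    have h1 : π v ∈ S := fun h => hcon (ex_sat hloc hL (v := g (π v)) (w := v) (hg' _) h)
    have h2 := Metric.infDist_le_dist_of_mem (x := (0 : Q)) h1
    rw [hq0d, dist_zero_left, dist_zero_left, ← hr] at h2
    linarith
  have hr0 : 0 < r := by
    rw [hr]
    refine norm_pos_iff.2 fun h0 => hbun ?_
    rw [hb, h0, map_zero]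
    exact ⟨x0, ex_zero hloc x0⟩
  -- the section over the tube
  have hHo : IsOpen {v : E | ‖π v‖ < r} := isOpen_lt π.continuous.norm continuous_const
  have hHc : Convex ℝ {v : E | ‖π v‖ < r} := by
    have h1 : {v : E | ‖π v‖ < r} = (π : E →ₗ[ℝ] Q) ⁻¹' ball 0 r := by
      ext v
      simp
    rw [h1]
    exact (convex_ball 0 r).linear_preimage _
  obtain ⟨σ, hσ, hσE⟩ := sec_of_Ex hloc (x := x0) hHo hHc hseen
  obtain ⟨U0, hU0⟩ : ∃ U0 : Set E, U0 = (fun q => q - dev x0) ⁻¹' {v : E | ‖π v‖ < r} := ⟨_, rfl⟩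
  rw [← hU0] at hσ
  have hU0m : ∀ p, p ∈ U0 ↔ ‖π (p - dev x0)‖ < r := by
    intro p
    rw [hU0]
    rfl
  -- points converging to the unseen point
  obtain ⟨t, htd⟩ : ∃ t : ℕ → ℝ, t = fun k : ℕ => 1 - 1 / ((k : ℝ) + 2) := ⟨_, rfl⟩
  have ht0 : ∀ k, 0 ≤ t k := by
    intro k
    rw [htd]
    have h1 : (0 : ℝ) < (k : ℝ) + 2 := by positivity
    have h2 : 1 / ((k : ℝ) + 2) ≤ 1 := by
      rw [div_le_one h1]
      have : (0 : ℝ) ≤ k := Nat.cast_nonneg k
      linarith
    beta_reduce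
    linarith
  have ht1 : ∀ k, t k < 1 := by
    intro k
    rw [htd]
    have h1 : (0 : ℝ) < 1 / ((k : ℝ) + 2) := by positivity
    beta_reduce
    linarith
  have htl : Tendsto t atTop (𝓝 1) := by
    rw [htd]
    have h1 : Tendsto (fun k : ℕ => 1 / ((k : ℝ) + 2)) atTop (𝓝 0) := by
      have h2 : Tendsto (fun k : ℕ => (k : ℝ) + 2) atTop atTop :=
        tendsto_atTop_add_const_right _ _ tendsto_natCast_atTop_atTop
      exact h2.inv_tendsto_atTop.congr fun k => by rw [Pi.inv_apply, one_div]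
    simpa using (tendsto_const_nhds (x := (1 : ℝ))).sub h1
  have hmem : ∀ k, dev x0 + t k • b ∈ U0 := by
    intro k
    rw [hU0m, add_sub_cancel_left, map_smul, norm_smul, hπb, ← hr, Real.norm_eq_abs,
      abs_of_nonneg (ht0 k)]
    have := ht1 k
    nlinarith
  obtain ⟨xs, hxs⟩ : ∃ xs : ℕ → X, xs = fun k => σ (dev x0 + t k • b) := ⟨_, rfl⟩
  have hxsd : ∀ k, dev (xs k) = dev x0 + t k • b := by
    intro k
    rw [hxs]
    exact hσ.inv _ (hmem k)
  have hxsE : ∀ k, Ex dev x0 (t k • b) (xs k) := by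
    intro k
    rw [hxs]
    refine hσE _ ?_
    have := (hU0m _).1 (hmem k)
    rwa [add_sub_cancel_left] at this
  have hxsun : ∀ k, ¬ ∃ y, Ex dev (xs k) ((1 - t k) • b) y := fun k h =>
    hbun (ex_line hloc (ht0 k) (ht1 k).le (hxsE k) h)
  -- back to a compact set
  obtain ⟨K, hK, hKc⟩ := D.cc
  choose γ' κ hκ hγ' using fun k => hKc (xs k)
  obtain ⟨γ, hγ⟩ : ∃ γ : ℕ → Γ, γ = fun k => (γ' k)⁻¹ := ⟨_, rfl⟩
  have hγκ : ∀ k, γ k • xs k = κ k := by
    intro k
    rw [hγ, ← hγ' k]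
    exact inv_smul_smul _ _
  choose c hc0 hc using fun k => hsim (γ k)
  obtain ⟨R, hR⟩ : ∃ R : ℕ → ℝ, R = fun k => c k * r := ⟨_, rfl⟩
  have hR0 : ∀ k, 0 < R k := by intro k; rw [hR]; exact mul_pos (hc0 k) hr0
  have hRb : ∀ k, ‖π (lin hol (γ k) b)‖ = R k := by intro k; rw [hc, hπb, ← hr, hR]
  obtain ⟨u, hu⟩ : ∃ u : ℕ → Q, u = fun k => (R k)⁻¹ • π (lin hol (γ k) b) := ⟨_, rfl⟩
  have hu1 : ∀ k, ‖u k‖ = 1 := by
    intro k
    rw [hu]
    beta_reduce
    rw [norm_smul, hRb, norm_inv, Real.norm_eq_abs, abs_of_pos (hR0 k), inv_mul_cancel₀ (hR0 k).ne']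
  have huR : ∀ k, π (lin hol (γ k) b) = R k • u k := by
    intro k
    rw [hu]
    beta_reduce
    rw [smul_smul, mul_inv_cancel₀ (hR0 k).ne', one_smul]
  -- a convergent subsequence
  obtain ⟨⟨z, u0⟩, -, φ, hφ, hlim⟩ := (hK.prod (isCompact_sphere (0 : Q) 1)).tendsto_subseq
    (x := fun k => (κ k, u k)) (fun k => ⟨hκ k, by rw [mem_sphere, dist_zero_right]; exact hu1 k⟩)
  have hzl : Tendsto (fun k => κ (φ k)) atTop (𝓝 z) := (continuous_fst.tendsto _).comp hlim
  have hul : Tendsto (fun k => u (φ k)) atTop (𝓝 u0) := (continuous_snd.tendsto _).comp hlim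
  have hu01 : ‖u0‖ = 1 := by
    have h1 := hul.norm
    have h2 : (fun k => ‖u (φ k)‖) = fun _ => (1 : ℝ) := funext fun k => hu1 _
    rw [h2] at h1
    exact tendsto_nhds_unique h1 tendsto_const_nhds
  obtain ⟨ε, hε, G, s, hs, hzG, hsz, N, hN, HN⟩ := local_tube hloc hπ hL z
  have hevN : ∀ᶠ k in atTop, κ (φ k) ∈ N := hzl.eventually_mem hN
  have hεR : ∀ᶠ k in atTop, ε ≤ (1 - t (φ k)) * R (φ k) := by
    filter_upwards [hevN] with k hk
    by_contra hcon
    push Not at hcon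
    obtain ⟨y, hy⟩ := (HN _ hk).2.2 ((1 - t (φ k)) • lin hol (γ (φ k)) b) (by
      rw [map_smul, norm_smul, hRb, Real.norm_eq_abs, abs_of_nonneg (by linarith [ht1 (φ k)])]
      exact hcon)
    have h1 := D.Ex_smul (γ (φ k))⁻¹ hy
    refine hxsun (φ k) ⟨(γ (φ k))⁻¹ • y, ?_⟩
    rw [← hγκ, inv_smul_smul] at h1
    have h2 : lin hol (γ (φ k))⁻¹ ((1 - t (φ k)) • lin hol (γ (φ k)) b) = (1 - t (φ k)) • b := by
      have h3 : lin hol (γ (φ k))⁻¹ ((1 - t (φ k)) • lin hol (γ (φ k)) b) =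
          (1 - t (φ k)) • lin hol (γ (φ k))⁻¹ (lin hol (γ (φ k)) b) :=
        (hol (γ (φ k))⁻¹).linear.map_smul _ _
      rw [h3, lin_inv_apply]
    rwa [h2] at h1
  -- the half-space seen from the limit
  have hhalf : ∀ v : E, inner ℝ u0 (π v) < ε / 2 → ∃ y, Ex dev z v y := by
    intro v hv
    -- membership in the transported tubes
    have hmU : ∀ k w, ‖(t k * R k) • u k + π w‖ < R k →
        dev (κ k) + w ∈ hol (γ k) '' U0 := by
      intro k w hw
      refine ⟨hol (γ k)⁻¹ (dev (κ k) + w), ?_, hol_apply_inv _ _⟩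
      have e1 : hol (γ k)⁻¹ (dev (κ k) + w) = dev x0 + t k • b + lin hol (γ k)⁻¹ w := by
        rw [hol_add, ← hxsd, ← D.equi, ← hγκ, inv_smul_smul]
      rw [hU0m, e1, add_assoc, add_sub_cancel_left]
      have e2 : lin hol (γ k) (t k • b + lin hol (γ k)⁻¹ w) = t k • lin hol (γ k) b + w := by
        have h3 : lin hol (γ k) (t k • b + lin hol (γ k)⁻¹ w) =
            t k • lin hol (γ k) b + lin hol (γ k) (lin hol (γ k)⁻¹ w) := by
          show (hol (γ k)).linear (t k • b + lin hol (γ k)⁻¹ w) = _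
          rw [map_add, map_smul]
        rw [h3]
        congr 1
        have := lin_inv_apply (hol := hol) (γ k)⁻¹ w
        rwa [inv_inv] at this
      have h4 := hc k (t k • b + lin hol (γ k)⁻¹ w)
      rw [e2, map_add, map_smul, huR, smul_smul] at h4
      rw [h4] at hw
      have h5 : c k * ‖π (t k • b + lin hol (γ k)⁻¹ w)‖ < c k * r := by
        have : R k = c k * r := by rw [hR]
        rwa [this] at hw
      exact lt_of_mul_lt_mul_left h5 (hc0 k).le
    have hwl : Tendsto (fun k => dev z - dev (κ (φ k))) atTop (𝓝 0) := by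
      have h1 : Tendsto (fun k => dev (κ (φ k))) atTop (𝓝 (dev z)) :=
        (hloc.continuous.tendsto z).comp hzl
      have h2 := (tendsto_const_nhds (x := dev z)).sub h1
      rwa [sub_self] at h2
    have hπw : Tendsto (fun k => π (dev z - dev (κ (φ k)))) atTop (𝓝 0) := by
      have := (π.continuous.tendsto 0).comp hwl
      rwa [map_zero] at this
    have hA : ∀ᶠ k in atTop, ‖(t (φ k) * R (φ k)) • u (φ k) + π (dev z - dev (κ (φ k)))‖ < R (φ k) :=
      ball_fill hε (fun k => ht0 _) (fun k => ht1 _) (htl.comp hφ.tendsto_atTop) hεR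
        (fun k => hu1 _) hul hπw (by rw [inner_zero_right]; exact half_pos hε)
    have hB : ∀ᶠ k in atTop,
        ‖(t (φ k) * R (φ k)) • u (φ k) + π (dev z - dev (κ (φ k)) + v)‖ < R (φ k) := by
      refine ball_fill hε (q0 := π v) (fun k => ht0 _) (fun k => ht1 _)
        (htl.comp hφ.tendsto_atTop) hεR (fun k => hu1 _) hul ?_ hv
      have h1 := hπw.add (tendsto_const_nhds (x := π v))
      rw [zero_add] at h1
      refine h1.congr fun k => ?_
      rw [map_add]
    obtain ⟨k, kA, kB, kN⟩ := (hA.and (hB.and hevN)).exists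
    have m1 := hmU (φ k) _ kA
    have m2 := hmU (φ k) _ kB
    have m0 : dev (κ (φ k)) ∈ hol (γ (φ k)) '' U0 := by
      have := hmU (φ k) 0 (by
        rw [map_zero, add_zero, norm_smul, hu1, mul_one, Real.norm_eq_abs,
          abs_of_nonneg (mul_nonneg (ht0 _) (hR0 _).le)]
        have := ht1 (φ k)
        have := hR0 (φ k)
        nlinarith)
      rwa [add_zero] at this
    have e1 : dev (κ (φ k)) + (dev z - dev (κ (φ k))) = dev z := by abel
    have e2 : dev (κ (φ k)) + (dev z - dev (κ (φ k)) + v) = dev z + v := by abel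
    rw [e1] at m1
    rw [e2] at m2
    have hsec := D.sec_smul (γ (φ k)) hσ
    -- both sections pass through the point `κ (φ k)`
    have h0 : γ (φ k) • σ (hol (γ (φ k))⁻¹ (dev (κ (φ k)))) = κ (φ k) := by
      have h1 : hol (γ (φ k))⁻¹ (dev (κ (φ k))) = dev x0 + t (φ k) • b := by
        rw [← hxsd, ← D.equi, ← hγκ, inv_smul_smul]
      rw [h1]
      have h2 : σ (dev x0 + t (φ k) • b) = xs (φ k) := by rw [hxs]
      rw [h2, hγκ]
    have h3 := hsec.eqOn hloc hs m0 (HN _ kN).1 (by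
      beta_reduce
      rw [h0, (HN _ kN).2.1]) _ m1 hzG
    beta_reduce at h3
    have h4 := hsec.Ex m1 m2
    beta_reduce at h4
    rw [h3, hsz] at h4
    exact ⟨_, h4⟩
  -- conclusion
  let f : E →L[ℝ] ℝ := -((innerSL ℝ u0).comp π)
  have hf : ∀ v, f v = - inner ℝ u0 (π v) := fun v => rfl
  have hf0 : f ≠ 0 := by
    obtain ⟨v, hv⟩ := hπ u0
    intro h
    have h1 := hf v
    rw [h, hv, real_inner_self_eq_norm_sq, hu01] at h1
    norm_num at h1
  obtain ⟨y, hy⟩ := Hs.of_half hloc hf0 (a := -(ε / 2)) (x := z) fun v hv => hhalf v (by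
    rw [hf] at hv
    linarith)
  exact half_complete D hy

end

end Pool.Agent.TH569.MK
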