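import Pool.Agent.TH569.MK.Af
import Pool.Agent.TH330.PX4934
import Pool.Agent.TH833.PX4935

/-!
Closed affine manifolds with parallel volume and a parallel foliation with complete leaves, such that
every unbounded sequence of the transversal linear holonomy is expanding.
-/

set_option autoImplicit false

open Set Filter Topology Metric

namespace Pool.Agent.TH569.MK

open Pool.Agent.W689.Mk Pool.Agent.TH330.PX Pool.Agent.TH833.PX4935

section norms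
variable {Q : Type} [NormedAddCommGroup Q] [InnerProductSpace ℝ Q]

theorem convex_sublevel {ι : Type} [Fintype ι] (P : ι → Q →L[ℝ] Q) (m : ℕ) (r : ℝ) :
    Convex ℝ {q : Q | ∑ i, ‖P i q‖ ^ (2 * m) < r} := by
  have h1 : ConvexOn ℝ univ (fun q : Q => ∑ i, ‖P i q‖ ^ (2 * m)) := by
    have h2 : ∀ i, ConvexOn ℝ univ (fun q : Q => ‖P i q‖ ^ (2 * m)) := by
      intro i
      have h3 : ConvexOn ℝ univ (fun q : Q => ‖P i q‖) :=
        (convexOn_norm convex_univ).comp_linearMap (P i : Q →ₗ[ℝ] Q)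
      exact h3.pow (fun _ _ => norm_nonneg _) _
    refine ⟨convex_univ, fun x _ y _ a b ha hb hab => ?_⟩
    have h4 : ∀ i ∈ (Finset.univ : Finset ι), ‖P i (a • x + b • y)‖ ^ (2 * m) ≤
        a * ‖P i x‖ ^ (2 * m) + b * ‖P i y‖ ^ (2 * m) := fun i _ =>
      (h2 i).2 (mem_univ x) (mem_univ y) ha hb hab
    have h5 := Finset.sum_le_sum h4
    rw [Finset.sum_add_distrib, ← Finset.mul_sum, ← Finset.mul_sum] at h5
    exact h5
  have h6 := h1.convex_lt r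
  simpa using h6

theorem bounded_sublevel {ι : Type} [Fintype ι] (P : ι → Q →L[ℝ] Q) (hsum : ∀ q, ∑ i, P i q = q)
    {m : ℕ} (hm : 1 ≤ m) (R : ℝ) :
    Bornology.IsBounded {q : Q | ∑ i, ‖P i q‖ ^ (2 * m) ≤ R} := by
  rw [isBounded_iff_forall_norm_le]
  refine ⟨∑ _i : ι, (1 + |R|), fun q hq => ?_⟩
  have hq' : ∑ i, ‖P i q‖ ^ (2 * m) ≤ R := hq
  calc ‖q‖ = ‖∑ i, P i q‖ := by rw [hsum]
    _ ≤ ∑ i, ‖P i q‖ := norm_sum_le _ _
    _ ≤ ∑ _i : ι, (1 + |R|) := by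
      refine Finset.sum_le_sum fun i _ => ?_
      have h1 : ‖P i q‖ ^ (2 * m) ≤ R :=
        le_trans (Finset.single_le_sum (f := fun i => ‖P i q‖ ^ (2 * m))
          (fun j _ => by positivity) (Finset.mem_univ i)) hq'
      by_contra hcon
      push Not at hcon
      have h2 : 1 ≤ ‖P i q‖ := by have := abs_nonneg R; linarith
      have h3 : ‖P i q‖ ≤ ‖P i q‖ ^ (2 * m) := le_self_pow₀ h2 (by omega)
      have := le_abs_self R
      linarith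

theorem sum_pow_pos {ι : Type} [Fintype ι] (P : ι → Q →L[ℝ] Q) (hsum : ∀ q, ∑ i, P i q = q)
    {m : ℕ} {q : Q} (hq : q ≠ 0) : 0 < ∑ i, ‖P i q‖ ^ (2 * m) := by
  obtain ⟨i, hi⟩ : ∃ i, P i q ≠ 0 := by
    by_contra hcon
    push Not at hcon
    apply hq
    rw [← hsum q]
    exact Finset.sum_eq_zero fun i _ => hcon i
  exact Finset.sum_pos' (fun j _ => by positivity) ⟨i, Finset.mem_univ i, by positivity⟩

omit [InnerProductSpace ℝ Q] in
theorem tendsto_app [NormedSpace ℝ Q] {A : ℕ → Q →L[ℝ] Q} {A0 : Q →L[ℝ] Q} {w : ℕ → Q} {w0 : Q}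
    (hA : Tendsto A atTop (𝓝 A0)) (hw : Tendsto w atTop (𝓝 w0)) :
    Tendsto (fun k => A k (w k)) atTop (𝓝 (A0 w0)) :=
  ((isBoundedBilinearMap_apply (𝕜 := ℝ) (E := Q) (F := Q)).continuous.tendsto (A0, w0)).comp
    (hA.prodMk_nhds hw)

end norms

section
variable {X Γ E Q : Type} [TopologicalSpace X] [T2Space X] [Group Γ] [MulAction Γ X]
  [NormedAddCommGroup E] [NormedSpace ℝ E] [FiniteDimensional ℝ E]
  [NormedAddCommGroup Q] [InnerProductSpace ℝ Q] [FiniteDimensional ℝ Q]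
  {dev : X → E} {hol : Γ →* (E ≃ᵃ[ℝ] E)}

theorem exp_complete (D : AffData X Γ E dev hol) [SecondCountableTopology X] [ConnectedSpace X]
    {π : E →L[ℝ] Q} (hπ : Function.Surjective π)
    (hL : ∀ (x : X) (v : E), π v = 0 → ∃ y, Ex dev x v y)
    (ρ : Γ → Q →L[ℝ] Q) (hρ : ∀ γ v, π (lin hol γ v) = ρ γ (π v))
    (hP : ∀ ε : ℝ, 0 < ε → ∃ R : ℝ, ∀ γ, R ≤ ‖ρ γ‖ → ‖ρ γ⁻¹‖ ≤ ε) :
    IsHomeomorph dev := by
  classical
  have hmul : ∀ γ δ q, ρ (γ * δ) q = ρ γ (ρ δ q) := by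
    intro γ δ q
    obtain ⟨v, rfl⟩ := hπ q
    rw [← hρ, lin_mul, hρ, hρ]
  have hone : ∀ q, ρ 1 q = q := by
    intro q
    obtain ⟨v, rfl⟩ := hπ q
    rw [← hρ]
    congr 1
    show (hol 1).linear v = v
    rw [map_one]
    rfl
  have hinv : ∀ γ q, ρ γ⁻¹ (ρ γ q) = q := by
    intro γ q
    rw [← hmul, inv_mul_cancel, hone]
  have hinv' : ∀ γ q, ρ γ (ρ γ⁻¹ q) = q := by
    intro γ q
    rw [← hmul, mul_inv_cancel, hone]
  by_cases hbd : ∃ M, ∀ γ, ‖ρ γ‖ ≤ M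
  · obtain ⟨M, hM⟩ := hbd
    refine af_complete D hπ hL ρ hρ (fun q => ‖q‖) continuous_norm (fun r => ?_) (fun q hq t h0 h1 => ?_)
      (fun R => ?_) (fun b _ γ hγ => ?_)
    · have : {q : Q | ‖q‖ < r} = ball 0 r := by
        ext q
        simp
      rw [this]
      exact convex_ball 0 r
    · rw [norm_smul, Real.norm_eq_abs, abs_of_nonneg h0]
      have : 0 < ‖q‖ := norm_pos_iff.2 hq
      nlinarith
    · rw [isBounded_iff_forall_norm_le]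
      exact ⟨R, fun q hq => hq⟩
    · exfalso
      obtain ⟨k, hk⟩ := (hγ.eventually_gt_atTop (M * ‖b‖)).exists
      have := (ρ (γ k)).le_of_opNorm_le (hM (γ k)) b
      linarith
  push Not at hbd
  obtain ⟨R0, hR0⟩ := hP (1 / 2) (by norm_num)
  obtain ⟨γ0, hγ0⟩ := hbd R0
  have hT'n : ‖ρ γ0⁻¹‖ < 1 := lt_of_le_of_lt (hR0 γ0 hγ0.le) (by norm_num)
  obtain ⟨T, hT⟩ : ∃ T, T = ρ γ0 := ⟨_, rfl⟩
  obtain ⟨T', hT'⟩ : ∃ T', T' = ρ γ0⁻¹ := ⟨_, rfl⟩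
  have hTT' : ∀ q, T (T' q) = q := fun q => by rw [hT, hT']; exact hinv' _ _
  have hT'T : ∀ q, T' (T q) = q := fun q => by rw [hT, hT']; exact hinv _ _
  obtain ⟨n0, P, α, β, C, hsum, hPP, hα, hPT', hPT⟩ := exp_blocks T T' hTT' hT'T (by rwa [hT'])
  obtain ⟨m, hm, hflat⟩ := flat_blocks P hsum hPP T T' hTT' hT'T α β C hα hPT' hPT
  have hpow : ∀ (n : ℕ) q, (T' ^ n) q = ρ (γ0⁻¹ ^ n) q := by
    intro n
    induction n with
    | zero => intro q; rw [pow_zero, pow_zero, hone]; rfl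
    | succ n ih =>
      intro q
      rw [pow_succ, pow_succ, hmul, ← hT']
      show (T' ^ n) (T' q) = _
      rw [ih]
  refine af_complete D hπ hL ρ hρ (fun q => ∑ i, ‖P i q‖ ^ (2 * m)) ?_
    (fun r => convex_sublevel P m r) (fun q hq t h0 h1 => ?_)
    (fun R => bounded_sublevel P hsum hm R) (fun b hb γ hγ => ?_)
  · exact continuous_finsetSum _ fun i _ => ((P i).continuous.norm).pow _
  · have e1 : ∑ i, ‖P i (t • q)‖ ^ (2 * m) = t ^ (2 * m) * ∑ i, ‖P i q‖ ^ (2 * m) := by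
      rw [Finset.mul_sum]
      refine Finset.sum_congr rfl fun i _ => ?_
      rw [map_smul, norm_smul, Real.norm_eq_abs, abs_of_nonneg h0, mul_pow]
    show ∑ i, ‖P i (t • q)‖ ^ (2 * m) < ∑ i, ‖P i q‖ ^ (2 * m)
    rw [e1]
    have h2 := sum_pow_pos P hsum (m := m) hq
    have h3 : t ^ (2 * m) < 1 := pow_lt_one₀ h0 h1 (by omega)
    nlinarith
  -- the flattening property
  have hbn : 0 < ‖b‖ := norm_pos_iff.2 hb
  have hnt : Tendsto (fun k => ‖ρ (γ k)‖) atTop atTop := by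
    refine tendsto_atTop_mono (f := fun k => ‖ρ (γ k) b‖ / ‖b‖) (fun k => ?_)
      (hγ.atTop_div_const hbn)
    rw [div_le_iff₀ hbn]
    exact (ρ (γ k)).le_opNorm b
  -- the exponents
  have hex : ∀ k, ∃ n : ℕ, ‖ρ (γ k * γ0⁻¹ ^ n)‖ ≤ 1 := by
    intro k
    have h1 : Tendsto (fun n : ℕ => ‖ρ (γ k)‖ * (1 / 2 : ℝ) ^ n) atTop (𝓝 (‖ρ (γ k)‖ * 0)) :=
      (tendsto_pow_atTop_nhds_zero_of_lt_one (by norm_num) (by norm_num)).const_mul _
    rw [mul_zero] at h1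
    obtain ⟨n, hn⟩ := (h1.eventually_le_const (show (0 : ℝ) < 1 by norm_num)).exists
    refine ⟨n, le_trans ?_ hn⟩
    have h2 : ∀ n : ℕ, ‖ρ (γ k * γ0⁻¹ ^ n)‖ ≤ ‖ρ (γ k)‖ * (1 / 2 : ℝ) ^ n := by
      intro n
      induction n with
      | zero => simp
      | succ n ih =>
        have h3 : ρ (γ k * γ0⁻¹ ^ (n + 1)) = (ρ (γ k * γ0⁻¹ ^ n)).comp (ρ γ0⁻¹) := by
          ext q
          rw [pow_succ, ← mul_assoc, hmul]
          rfl
        rw [h3]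
        calc _ ≤ ‖ρ (γ k * γ0⁻¹ ^ n)‖ * ‖ρ γ0⁻¹‖ := ContinuousLinearMap.opNorm_comp_le _ _
          _ ≤ (‖ρ (γ k)‖ * (1 / 2 : ℝ) ^ n) * (1 / 2) := by
            have := hR0 γ0 hγ0.le
            gcongr
          _ = _ := by ring
    exact h2 n
  obtain ⟨n, hn⟩ : ∃ n : ℕ → ℕ, n = fun k => Nat.find (hex k) := ⟨_, rfl⟩
  have hn1 : ∀ k, ‖ρ (γ k * γ0⁻¹ ^ n k)‖ ≤ 1 := by
    intro k
    rw [hn]
    exact Nat.find_spec (hex k)
  have hn2 : ∀ k, ∀ j < n k, 1 < ‖ρ (γ k * γ0⁻¹ ^ j)‖ := by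
    intro k j hj
    rw [hn] at hj
    exact not_le.1 (Nat.find_min (hex k) hj)
  have hTn : 1 ≤ ‖T‖ + 1 := by have := norm_nonneg T; linarith
  have hTn0 : 0 < ‖T‖ + 1 := by linarith
  have hup : ∀ k, ‖ρ (γ k)‖ ≤ (‖T‖ + 1) ^ n k := by
    intro k
    have h1 : ∀ j : ℕ, ‖ρ (γ k)‖ ≤ ‖ρ (γ k * γ0⁻¹ ^ j)‖ * (‖T‖ + 1) ^ j := by
      intro j
      induction j with
      | zero => simp
      | succ j ih =>
        have h3 : ρ (γ k * γ0⁻¹ ^ j) = (ρ (γ k * γ0⁻¹ ^ (j + 1))).comp T := by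
          ext q
          rw [pow_succ, ← mul_assoc, ContinuousLinearMap.comp_apply, hmul _ γ0⁻¹, hT, hinv]
        have h4 : ‖ρ (γ k * γ0⁻¹ ^ j)‖ ≤ ‖ρ (γ k * γ0⁻¹ ^ (j + 1))‖ * (‖T‖ + 1) := by
          rw [h3]
          refine le_trans (ContinuousLinearMap.opNorm_comp_le _ _) ?_
          gcongr
          linarith
        calc _ ≤ _ := ih
          _ ≤ (‖ρ (γ k * γ0⁻¹ ^ (j + 1))‖ * (‖T‖ + 1)) * (‖T‖ + 1) ^ j := by gcongr
          _ = _ := by ring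
    calc _ ≤ _ := h1 (n k)
      _ ≤ 1 * (‖T‖ + 1) ^ n k := by have := hn1 k; gcongr
      _ = _ := one_mul _
  have hninf : Tendsto n atTop atTop := by
    rw [Filter.tendsto_atTop]
    intro j
    filter_upwards [hnt.eventually_gt_atTop ((‖T‖ + 1) ^ j)] with k hk
    by_contra hcon
    push Not at hcon
    have h1 := hup k
    have h2 : (‖T‖ + 1) ^ n k ≤ (‖T‖ + 1) ^ j := pow_le_pow_right₀ hTn hcon.le
    linarith
  obtain ⟨R1, hR1⟩ := hP (1 / (2 * (‖T‖ + 1))) (by positivity)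
  have hlow : ∀ᶠ k in atTop, ‖ρ (γ k * γ0⁻¹ ^ n k)⁻¹‖ ≤ |R1| := by
    filter_upwards [hninf.eventually_ge_atTop 1] with k hk
    by_contra hcon
    push Not at hcon
    have h1 := hR1 (γ k * γ0⁻¹ ^ n k)⁻¹ (le_trans (le_abs_self _) hcon.le)
    rw [inv_inv] at h1
    have h2 := hn2 k (n k - 1) (by omega)
    have h3 : ρ (γ k * γ0⁻¹ ^ (n k - 1)) = (ρ (γ k * γ0⁻¹ ^ n k)).comp T := by
      ext q
      obtain ⟨j, hj⟩ : ∃ j, n k = j + 1 := ⟨n k - 1, by omega⟩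
      rw [hj, Nat.add_sub_cancel, pow_succ, ← mul_assoc, ContinuousLinearMap.comp_apply,
        hmul _ γ0⁻¹, hT, hinv]
    have h4 : ‖ρ (γ k * γ0⁻¹ ^ (n k - 1))‖ ≤ (1 / (2 * (‖T‖ + 1))) * (‖T‖ + 1) := by
      rw [h3]
      refine le_trans (ContinuousLinearMap.opNorm_comp_le _ _) ?_
      gcongr
      linarith
    have h5 : (1 / (2 * (‖T‖ + 1))) * (‖T‖ + 1) = 1 / 2 := by
      field_simp
    linarith
  -- a convergent subsequence of the bounded factors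
  have : ProperSpace (Q →L[ℝ] Q) := FiniteDimensional.proper ℝ _
  obtain ⟨⟨h, h'⟩, -, φ, hφ, hlim⟩ :=
    ((isCompact_closedBall (0 : Q →L[ℝ] Q) 1).prod (isCompact_closedBall (0 : Q →L[ℝ] Q) |R1|)).tendsto_subseq'
      (x := fun k => (ρ (γ k * γ0⁻¹ ^ n k), ρ (γ k * γ0⁻¹ ^ n k)⁻¹))
      (hlow.frequently.mono fun k hk => ⟨by simpa using hn1 k, by simpa using hk⟩)
  have hl1 : Tendsto (fun k => ρ (γ (φ k) * γ0⁻¹ ^ n (φ k))) atTop (𝓝 h) :=
    (continuous_fst.tendsto _).comp hlim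
  have hl2 : Tendsto (fun k => ρ (γ (φ k) * γ0⁻¹ ^ n (φ k))⁻¹) atTop (𝓝 h') :=
    (continuous_snd.tendsto _).comp hlim
  have hhh : ∀ q, h' (h q) = q := by
    intro q
    have h1 := tendsto_app hl2 (tendsto_app hl1 (tendsto_const_nhds (x := q)))
    have h2 : (fun k => ρ (γ (φ k) * γ0⁻¹ ^ n (φ k))⁻¹ (ρ (γ (φ k) * γ0⁻¹ ^ n (φ k)) q)) =
        fun _ => q := by
      funext k
      exact hinv _ _
    rw [h2] at h1
    exact (tendsto_nhds_unique h1 tendsto_const_nhds)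
  obtain ⟨φ', hφ', f, hf0, hf⟩ := hflat b hb (fun k => n (φ k)) (hninf.comp hφ.tendsto_atTop)
  refine ⟨fun k => φ (φ' k), hφ.comp hφ', f.comp h', ?_, fun w w0 hw hw0 => ?_⟩
  · intro hcon
    apply hf0
    ext q
    have h1 := congrArg (fun A : Q →L[ℝ] ℝ => A (h q)) hcon
    have h2 : f (h' (h q)) = 0 := h1
    rw [hhh] at h2
    exact h2
  · have h1 : Tendsto (fun k => ρ (γ (φ (φ' k)) * γ0⁻¹ ^ n (φ (φ' k)))⁻¹ (w k)) atTop (𝓝 (h' w0)) :=
      tendsto_app (hl2.comp hφ'.tendsto_atTop) hw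
    filter_upwards [hf _ _ h1 hw0] with k hk
    have h2 : (T' ^ n (φ (φ' k))) (ρ (γ (φ (φ' k)) * γ0⁻¹ ^ n (φ (φ' k)))⁻¹ (w k)) =
        ρ (γ (φ (φ' k)))⁻¹ (w k) := by
      rw [hpow, ← hmul]
      congr 2
      group
    rw [h2] at hk
    exact hk

end

end Pool.Agent.TH569.MK
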