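import Pool.Agent.TH569.MK.Exp
import Pool.Agent.TH569.MK.Chain

/-!
Closed affine manifolds with parallel volume: complete directions, then bounded directions, then
expanding directions.
-/

set_option autoImplicit false

open Set Filter Topology Metric

namespace Pool.Agent.TH569.MK

open Pool.Agent.W689.Mk

section
variable {X Γ E Q : Type} [TopologicalSpace X] [T2Space X] [Group Γ] [MulAction Γ X]
  [NormedAddCommGroup E] [NormedSpace ℝ E] [FiniteDimensional ℝ E]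
  [NormedAddCommGroup Q] [InnerProductSpace ℝ Q]
  {dev : X → E} {hol : Γ →* (E ≃ᵃ[ℝ] E)}

theorem exp_chain_complete (D : AffData X Γ E dev hol) [SecondCountableTopology X]
    [ConnectedSpace X] (S : ℕ → Submodule ℝ E) (m : ℕ)
    (hS : ∀ (x : X), ∀ v ∈ S 0, Geod dev x v)
    (hC : ∀ i < m, ∃ C : ℝ, ∀ γ : Γ, ∀ v ∈ S (i + 1), ∃ w ∈ S i,
      ‖(hol γ).linear v - w‖ ≤ C * ‖v‖)
    (π : E →L[ℝ] Q) (hπ : Function.Surjective π) (hker : ∀ v, π v = 0 → v ∈ S m)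
    (ρ : Γ → Q →L[ℝ] Q) (hρ : ∀ γ v, π ((hol γ).linear v) = ρ γ (π v))
    (hP : ∀ ε : ℝ, 0 < ε → ∃ R : ℝ, ∀ γ, R ≤ ‖ρ γ‖ → ‖ρ γ⁻¹‖ ≤ ε) :
    IsHomeomorph dev := by
  have : FiniteDimensional ℝ Q := Module.Finite.of_surjective (π : E →ₗ[ℝ] Q) hπ
  have h1 := chain_complete D S m (fun x v hv => Geod.ex D.loc (hS x v hv)) hC
  exact exp_complete D hπ (fun x v hv => h1 x v (hker v hv)) ρ hρ hP

end

end Pool.Agent.TH569.MK
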