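import Pool.Agent.W689.Mk.Star

/-!
A holonomy-invariant set in a finite union of proper affine subspaces is empty, for closed affine
manifolds with parallel volume.
-/

set_option autoImplicit false

open Set Filter Topology Metric

namespace Pool.Agent.TH569.MK

open Pool.Agent.W689.Mk

section
variable {E : Type} [NormedAddCommGroup E] [NormedSpace ℝ E] [FiniteDimensional ℝ E]

/-- `C` is covered by finitely many affine subspaces of dimension less than `d` -/
def Cov (C : Set E) (d : ℕ) : Prop :=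
  ∃ F : Set (AffineSubspace ℝ E), F.Finite ∧ (∀ A ∈ F, Module.finrank ℝ A.direction < d) ∧
    ∀ q ∈ C, ∃ A ∈ F, q ∈ A

theorem Cov.map {C C' : Set E} {d : ℕ} (h : Cov C' d) (g : E ≃ᵃ[ℝ] E) (hg : ∀ q ∈ C, g q ∈ C') :
    Cov C d := by
  obtain ⟨F, h1, h2, h3⟩ := h
  refine ⟨(fun A => A.map (g.symm : E →ᵃ[ℝ] E)) '' F, h1.image _, ?_, fun q hq => ?_⟩
  · rintro _ ⟨A, hA, rfl⟩
    beta_reduce
    rw [AffineSubspace.map_direction]
    have h4 : Module.finrank ℝ (Submodule.map (g.symm : E →ᵃ[ℝ] E).linear A.direction) =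
        Module.finrank ℝ A.direction := LinearEquiv.finrank_map_eq g.symm.linear A.direction
    rw [h4]
    exact h2 A hA
  · obtain ⟨A, hA, hqA⟩ := h3 _ (hg q hq)
    refine ⟨_, ⟨A, hA, rfl⟩, ?_⟩
    rw [AffineSubspace.mem_map]
    exact ⟨g q, hqA, g.symm_apply_apply q⟩

/-- the essential subspaces -/
def Ess (C : Set E) (d : ℕ) : Set (AffineSubspace ℝ E) :=
  {A | Module.finrank ℝ A.direction = d ∧ ¬ Cov (C ∩ A) d}

theorem Ess.sub {C : Set E} {d : ℕ} {F : Set (AffineSubspace ℝ E)} (h1 : F.Finite)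
    (h2 : ∀ A ∈ F, Module.finrank ℝ A.direction < d + 1) (h3 : ∀ q ∈ C, ∃ A ∈ F, q ∈ A) :
    Ess C d ⊆ F := by
  rintro A ⟨hA1, hA2⟩
  by_contra hAF
  apply hA2
  refine ⟨(fun B => A ⊓ B) '' {B | B ∈ F ∧ (A ⊓ B : AffineSubspace ℝ E) ≠ ⊥},
    (h1.subset fun B hB => hB.1).image _, ?_, ?_⟩
  · rintro _ ⟨B, ⟨hB, hne⟩, rfl⟩
    beta_reduce
    have hne' : ((A ⊓ B : AffineSubspace ℝ E) : Set E).Nonempty := by
      rwa [AffineSubspace.nonempty_iff_ne_bot]
    have k1 : (A ⊓ B).direction ≤ A.direction := AffineSubspace.direction_le inf_le_left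
    have k2 := Submodule.finrank_mono k1
    rw [hA1] at k2
    rcases lt_or_eq_of_le k2 with h | h
    · exact h
    exfalso
    have k3 : (A ⊓ B).direction = A.direction := Submodule.eq_of_le_of_finrank_eq k1 (by rw [h, hA1])
    have k4 : A ⊓ B = A :=
      AffineSubspace.eq_of_direction_eq_of_nonempty_of_le k3 hne' inf_le_left
    have k5 : A ≤ B := by rw [← k4]; exact inf_le_right
    have k6 := Submodule.finrank_mono (AffineSubspace.direction_le k5)
    have k7 := h2 B hB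
    have k8 : A.direction = B.direction :=
      Submodule.eq_of_le_of_finrank_eq (AffineSubspace.direction_le k5) (by omega)
    have k9 : A = B := by
      refine AffineSubspace.eq_of_direction_eq_of_nonempty_of_le k8 ?_ k5
      obtain ⟨p, hp⟩ := hne'
      exact ⟨p, hp.1⟩
    exact hAF (k9 ▸ hB)
  · rintro q ⟨hqC, hqA⟩
    obtain ⟨B, hB, hqB⟩ := h3 q hqC
    have hq : q ∈ (A ⊓ B : AffineSubspace ℝ E) := ⟨hqA, hqB⟩
    refine ⟨_, ⟨B, ⟨hB, fun h => ?_⟩, rfl⟩, hq⟩
    rw [h] at hq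
    exact (AffineSubspace.notMem_bot ℝ E q hq)

theorem Ess.nonempty {C : Set E} {d : ℕ} (h : Cov C (d + 1)) (h' : ¬ Cov C d) :
    (Ess C d).Nonempty := by
  by_contra hcon
  rw [Set.not_nonempty_iff_eq_empty] at hcon
  have h0 : ∀ A : AffineSubspace ℝ E, Module.finrank ℝ A.direction = d → Cov (C ∩ A) d := by
    intro A hA
    by_contra h1
    have : A ∈ Ess C d := ⟨hA, h1⟩
    rw [hcon] at this
    exact this
  obtain ⟨F, h1, h2, h3⟩ := h
  have h4 : ∀ A ∈ F, Cov (C ∩ A) d := by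
    intro A hA
    rcases lt_or_eq_of_le (Nat.lt_succ_iff.1 (h2 A hA)) with h5 | h5
    · exact ⟨{A}, finite_singleton A, fun B hB => by rw [mem_singleton_iff.1 hB]; exact h5,
        fun q hq => ⟨A, rfl, hq.2⟩⟩
    · exact h0 A h5
  apply h'
  choose! G hG using h4
  refine ⟨⋃ A ∈ F, G A, h1.biUnion fun A hA => (hG A hA).1, ?_, ?_⟩
  · intro B hB
    obtain ⟨A, hA, hBA⟩ := mem_iUnion₂.1 hB
    exact (hG A hA).2.1 B hBA
  · intro q hq
    obtain ⟨A, hA, hqA⟩ := h3 q hq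
    obtain ⟨B, hB, hqB⟩ := (hG A hA).2.2 q ⟨hq, hqA⟩
    exact ⟨B, mem_iUnion₂.2 ⟨A, hA, hB⟩, hqB⟩

theorem Ess.map {C : Set E} {d : ℕ} (g : E ≃ᵃ[ℝ] E) (hg : ∀ q ∈ C, g q ∈ C)
    {A : AffineSubspace ℝ E} (hA : A ∈ Ess C d) : A.map (g : E →ᵃ[ℝ] E) ∈ Ess C d := by
  refine ⟨?_, fun h => hA.2 (h.map g fun q hq => ⟨hg q hq.1, ?_⟩)⟩
  · rw [AffineSubspace.map_direction]
    have h4 : Module.finrank ℝ (Submodule.map (g : E →ᵃ[ℝ] E).linear A.direction) =
        Module.finrank ℝ A.direction := LinearEquiv.finrank_map_eq g.linear A.direction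
    rw [h4, hA.1]
  · exact (AffineSubspace.mem_map).2 ⟨q, hq.2, rfl⟩

end

section
variable {X Γ E : Type} [TopologicalSpace X] [T2Space X] [Group Γ] [MulAction Γ X]
  [NormedAddCommGroup E] [NormedSpace ℝ E] [FiniteDimensional ℝ E]
  {dev : X → E} {hol : Γ →* (E ≃ᵃ[ℝ] E)}

/-- passing to a subgroup of finite index -/
theorem AffData.restrict (D : AffData X Γ E dev hol) (H : Subgroup Γ) (T : Set Γ) (hT : T.Finite)
    (hHT : ∀ γ : Γ, ∃ s ∈ T, γ * s ∈ H) : AffData X H E dev (hol.comp H.subtype) where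
  loc := D.loc
  cont := fun γ => D.cont γ
  equi := fun γ x => D.equi γ x
  unimod := fun γ => D.unimod γ
  pd := by
    intro K hK
    refine Finite.of_finite_image (f := fun h : H => (h : Γ)) ((D.pd K hK).subset ?_)
      (Subtype.val_injective.injOn)
    rintro _ ⟨h, hh, rfl⟩
    exact hh
  cc := by
    obtain ⟨K, hK, hc⟩ := D.cc
    refine ⟨⋃ s ∈ T, (fun x : X => s⁻¹ • x) '' K,
      hT.isCompact_biUnion fun s _ => hK.image (D.cont s⁻¹), fun x => ?_⟩
    obtain ⟨γ, k, hk, rfl⟩ := hc x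
    obtain ⟨s, hs, hγs⟩ := hHT γ
    refine ⟨⟨γ * s, hγs⟩, s⁻¹ • k, mem_biUnion hs ⟨k, hk, rfl⟩, ?_⟩
    show (γ * s) • s⁻¹ • k = γ • k
    rw [smul_smul, mul_assoc, mul_inv_cancel, mul_one]

/-- **No holonomy-invariant nonempty set lies in finitely many proper affine subspaces.** -/
theorem no_finite_union (D : AffData X Γ E dev hol) [SecondCountableTopology X] [Nonempty X]
    {C : Set E} (hinv : ∀ (γ : Γ), ∀ q ∈ C, hol γ q ∈ C) {F : Set (AffineSubspace ℝ E)}
    (hF : F.Finite) (hFt : ∀ A ∈ F, A ≠ ⊤) (hCF : ∀ q ∈ C, ∃ A ∈ F, q ∈ A) : C = ∅ := by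
  classical
  by_contra hne
  have hne' : C.Nonempty := nonempty_iff_ne_empty.2 hne
  have hC : Cov C (Module.finrank ℝ E) := by
    refine ⟨F ∩ {A | A ≠ ⊥}, hF.inter_of_left _, ?_, fun q hq => ?_⟩
    · rintro A ⟨hA, hAb⟩
      refine Submodule.finrank_lt fun h => hFt A hA ?_
      exact (AffineSubspace.direction_eq_top_iff_of_nonempty
        ((AffineSubspace.nonempty_iff_ne_bot A).2 hAb)).1 h
    · obtain ⟨A, hA, hqA⟩ := hCF q hq
      refine ⟨A, ⟨hA, fun h => ?_⟩, hqA⟩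
      rw [h] at hqA
      exact AffineSubspace.notMem_bot ℝ E q hqA
  have hex : ∃ m, Cov C m := ⟨_, hC⟩
  have hm := Nat.find_spec hex
  have hle : Nat.find hex ≤ Module.finrank ℝ E := Nat.find_min' hex hC
  obtain ⟨d, hd⟩ : ∃ d, Nat.find hex = d + 1 := by
    refine Nat.exists_eq_succ_of_ne_zero fun h0 => ?_
    rw [h0] at hm
    obtain ⟨G, -, hG, hCG⟩ := hm
    obtain ⟨q, hq⟩ := hne'
    obtain ⟨A, hA, -⟩ := hCG q hq
    exact absurd (hG A hA) (Nat.not_lt_zero _)
  have hnd : ¬ Cov C d := Nat.find_min hex (by omega)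
  rw [hd] at hm hle
  obtain ⟨A0, hA0⟩ := Ess.nonempty hm hnd
  obtain ⟨G, hG1, hG2, hG3⟩ := hm
  have hEf : (Ess C d).Finite := hG1.subset (Ess.sub hG1 hG2 hG3)
  -- the stabiliser
  let H : Subgroup Γ :=
    { carrier := {γ | (hol γ) '' (A0 : Set E) = A0}
      mul_mem' := by
        intro a b ha hb
        show (hol (a * b)) '' (A0 : Set E) = A0
        have h1 : (hol (a * b)) '' (A0 : Set E) = hol a '' (hol b '' (A0 : Set E)) := by
          rw [map_mul, ← image_comp]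
          rfl
        rw [h1, hb, ha]
      one_mem' := by
        show (hol 1) '' (A0 : Set E) = A0
        rw [map_one]
        exact image_id _
      inv_mem' := by
        intro a ha
        show (hol a⁻¹) '' (A0 : Set E) = A0
        have h1 : (hol a) '' (A0 : Set E) = A0 := ha
        nth_rewrite 1 [← h1]
        rw [← image_comp]
        have h2 : (hol a⁻¹ : E → E) ∘ (hol a) = id := by
          funext p
          exact hol_inv_apply a p
        rw [h2, image_id] }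
  have hHmem : ∀ γ, γ ∈ H ↔ (hol γ) '' (A0 : Set E) = A0 := fun γ => Iff.rfl
  let f : Γ → AffineSubspace ℝ E := fun γ => A0.map (hol γ : E →ᵃ[ℝ] E)
  have hf : (range f).Finite := by
    refine hEf.subset ?_
    rintro _ ⟨γ, rfl⟩
    exact Ess.map (hol γ) (hinv γ) hA0
  have hr : ∀ A ∈ range f, ∃ s, f s = A := fun A hA => hA
  choose! r hr using hr
  have hHT : ∀ γ : Γ, ∃ s ∈ r '' range f, γ * s ∈ H := by
    intro γ
    refine ⟨r (f γ⁻¹), ⟨_, ⟨γ⁻¹, rfl⟩, rfl⟩, ?_⟩
    rw [hHmem]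
    have h1 := hr (f γ⁻¹) ⟨γ⁻¹, rfl⟩
    have h2 : (hol (r (f γ⁻¹))) '' (A0 : Set E) = (hol γ⁻¹) '' (A0 : Set E) := by
      have := congrArg (fun A : AffineSubspace ℝ E => (A : Set E)) h1
      exact this
    have h3 : (hol (γ * r (f γ⁻¹))) '' (A0 : Set E) =
        hol γ '' (hol (r (f γ⁻¹)) '' (A0 : Set E)) := by
      rw [map_mul, ← image_comp]
      rfl
    rw [h3, h2, ← image_comp]
    have h4 : (hol γ : E → E) ∘ (hol γ⁻¹) = id := by
      funext p
      exact hol_apply_inv γ p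
    rw [h4, image_id]
  have D' := AffData.restrict D H (r '' range f) (hf.image r) hHT
  have hA0ne : (A0 : Set E).Nonempty := by
    by_contra hcon
    rw [not_nonempty_iff_eq_empty] at hcon
    refine hA0.2 ⟨∅, finite_empty, fun A hA => hA.elim, fun q hq => ?_⟩
    have := hq.2
    rw [hcon] at this
    exact this.elim
  obtain ⟨p, hp⟩ := hA0ne
  have hu := star_univ D' (C := (A0 : Set E)) hp (A0.convex.starConvex hp) fun γ q hq => by
    have h1 : (hol (γ : Γ)) '' (A0 : Set E) = A0 := γ.2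
    have h2 : hol (γ : Γ) q ∈ (hol (γ : Γ)) '' (A0 : Set E) := ⟨q, hq, rfl⟩
    rwa [h1] at h2
  have hA0t : A0 = ⊤ := by
    apply SetLike.coe_injective
    rw [hu]
    rfl
  have h9 := hA0.1
  rw [hA0t, AffineSubspace.direction_top, finrank_top] at h9
  omega

end

end Pool.Agent.TH569.MK
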