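import Pool.Agent.TH569.MK.Basic

/-!
If all unseen vectors at one point lie in finitely many subspaces of codimension at least two, then
the developing map is injective.
-/

set_option autoImplicit false

open Set Filter Topology Metric MeasureTheory

namespace Pool.Agent.TH569.MK

open Pool.Agent.W689.Mk

section
variable {E : Type} [NormedAddCommGroup E] [NormedSpace ℝ E] [FiniteDimensional ℝ E]

/-- an open set contains a point off finitely many proper affine subspaces through a point -/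
theorem exists_off {O : Set E} (hO : IsOpen O) (hne : O.Nonempty) (p0 : E)
    {S : Set (Submodule ℝ E)} (hfin : S.Finite) (h : ∀ W ∈ S, W ≠ ⊤) :
    ∃ p ∈ O, ∀ W ∈ S, p - p0 ∉ W := by
  let : MeasurableSpace E := borel E
  have : BorelSpace E := ⟨rfl⟩
  let μ : Measure E := Measure.addHaar
  by_contra hcon
  push Not at hcon
  have h1 : O ⊆ ⋃ W ∈ S, {p | p - p0 ∈ W} := by
    intro p hp
    obtain ⟨W, hW, hpW⟩ := hcon p hp
    exact mem_biUnion hW hpW
  have h2 : μ (⋃ W ∈ S, {p | p - p0 ∈ W}) = 0 := by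
    rw [measure_biUnion_null_iff hfin.countable]
    intro W hW
    have h3 : {p | p - p0 ∈ W} = (AffineSubspace.mk' p0 W : Set E) := by
      ext p
      simp
    rw [h3]
    refine Measure.addHaar_affineSubspace μ _ fun ht => h W hW ?_
    have := congrArg AffineSubspace.direction ht
    rwa [AffineSubspace.direction_mk', AffineSubspace.direction_top] at this
  exact (hO.measure_pos μ hne).ne' (measure_mono_null h1 h2)

theorem sup_span_ne_top {W : Submodule ℝ E} (hW : Module.finrank ℝ W + 2 ≤ Module.finrank ℝ E)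
    (w : E) : W ⊔ Submodule.span ℝ {w} ≠ ⊤ := by
  intro h
  have h1 := Submodule.finrank_add_le_finrank_add_finrank W (Submodule.span ℝ {w})
  have h2 : Module.finrank ℝ (Submodule.span ℝ ({w} : Set E)) ≤ 1 := by
    have := finrank_span_le_card (R := ℝ) ({w} : Set E)
    rwa [toFinset_singleton, Finset.card_singleton] at this
  rw [h, finrank_top] at h1
  omega

theorem seg_off {W : Submodule ℝ E} {p0 q1 q2 m : E} (h1 : q1 - p0 ∉ W)
    (h2 : q2 - p0 ∉ W ⊔ Submodule.span ℝ {q1 - p0}) (hm : m ∈ segment ℝ q1 q2) : m - p0 ∉ W := by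
  obtain ⟨a, b, ha, hb, hab, rfl⟩ := hm
  intro h
  have e1 : a • q1 + b • q2 - p0 = a • (q1 - p0) + b • (q2 - p0) := by
    rw [smul_sub, smul_sub]
    have : p0 = a • p0 + b • p0 := by rw [← add_smul, hab, one_smul]
    nth_rewrite 1 [this]
    abel
  rw [e1] at h
  rcases eq_or_ne b 0 with h0 | h0
  · rw [h0, zero_smul, add_zero] at h
    have : a = 1 := by linarith
    rw [this, one_smul] at h
    exact h1 h
  · apply h2
    have e2 : q2 - p0 = b⁻¹ • (a • (q1 - p0) + b • (q2 - p0)) + (-(b⁻¹ * a)) • (q1 - p0) := by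
      rw [smul_add, smul_smul, smul_smul, inv_mul_cancel₀ h0, one_smul, neg_smul]
      abel
    rw [e2]
    refine add_mem (Submodule.mem_sup_left (W.smul_mem _ h))
      (Submodule.mem_sup_right (Submodule.smul_mem _ _ (Submodule.mem_span_singleton_self _)))

end

section
variable {X E : Type} [TopologicalSpace X] [T2Space X] [NormedAddCommGroup E] [NormedSpace ℝ E]
  [FiniteDimensional ℝ E] {dev : X → E}

theorem thin_injective [PreconnectedSpace X] (hloc : IsLocalHomeomorph dev) (x : X)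
    {S : Set (Submodule ℝ E)} (hfin : S.Finite)
    (hS : ∀ W ∈ S, Module.finrank ℝ W + 2 ≤ Module.finrank ℝ E)
    (hE : ∀ v, (∀ W ∈ S, v ∉ W) → ∃ y, Ex dev x v y) :
    Function.Injective dev ∧ ∀ q, q ∉ range dev → ∃ W ∈ S, q - dev x ∈ W := by
  classical
  have hSt : ∀ W ∈ S, W ≠ ⊤ := by
    intro W hW h
    have := hS W hW
    rw [h, finrank_top] at this
    omega
  obtain ⟨σ, hσ⟩ : ∃ σ : E → X, ∀ q y, Ex dev x (q - dev x) y → σ q = y := by
    refine ⟨fun q => if h : ∃ y, Ex dev x (q - dev x) y then h.choose else x, fun q y hy => ?_⟩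
    have h1 : ∃ y, Ex dev x (q - dev x) y := ⟨y, hy⟩
    have h2 : (if h : ∃ y, Ex dev x (q - dev x) y then h.choose else x) = h1.choose := dif_pos h1
    beta_reduce
    rw [h2]
    exact h1.choose_spec.unique hloc hy
  obtain ⟨U, hU⟩ : ∃ U : Set E, U = {q | ∃ y, Ex dev x (q - dev x) y} := ⟨_, rfl⟩
  have hlocU : ∀ q ∈ U, ∃ (V : Set E) (τ : E → X), Sec dev V τ ∧ q ∈ V ∧
      ∀ p ∈ V, p ∈ U ∧ σ p = τ p := by
    intro q hq
    rw [hU] at hq
    obtain ⟨y, V, τ, h1, h2, h3, h4, h5⟩ := hq
    rw [add_sub_cancel] at h4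
    refine ⟨V, τ, h1, h4, fun p hp => ?_⟩
    have h6 : Ex dev x (p - dev x) (τ p) := by
      refine ⟨V, τ, h1, h2, h3, ?_, ?_⟩
      · rw [add_sub_cancel]; exact hp
      · rw [add_sub_cancel]
    refine ⟨?_, hσ p _ h6⟩
    rw [hU]
    exact ⟨_, h6⟩
  have hoff : ∀ q, (∀ W ∈ S, q - dev x ∉ W) → q ∈ U := by
    intro q hq
    rw [hU]
    exact hE _ hq
  have hσc : ContinuousOn σ U := by
    intro q hq
    apply ContinuousAt.continuousWithinAt
    obtain ⟨V, τ, h1, h2, h3⟩ := hlocU q hq
    have h4 : ContinuousAt τ q := (h1.cont q h2).continuousAt (h1.isOpen.mem_nhds h2)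
    refine h4.congr ?_
    filter_upwards [h1.isOpen.mem_nhds h2] with p hp
    exact (h3 p hp).2.symm
  have hσi : ∀ q ∈ U, dev (σ q) = q := by
    intro q hq
    obtain ⟨V, τ, h1, h2, h3⟩ := hlocU q hq
    rw [(h3 q h2).2]
    exact h1.inv q h2
  -- the section agrees with the identity everywhere
  have key : ∀ y, dev y ∈ U → σ (dev y) = y := by
    let T : Set X := {y | ∀ᶠ y' in 𝓝 y, dev y' ∈ U → σ (dev y') = y'}
    have hTo : IsOpen T := isOpen_setOfPred_eventually_nhds
    have hTn : T.Nonempty := by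
      refine ⟨x, ?_⟩
      obtain ⟨e, r, hxe, he, hr, hrt⟩ := exists_sec hloc x
      have hsec := sec_of_target e he (dev x) r hrt
      have hex : e.symm (dev x) = x := by rw [he]; exact e.left_inv hxe
      have hop := hsec.isOpen_image hloc isOpen_ball Subset.rfl
      show ∀ᶠ y' in 𝓝 x, dev y' ∈ U → σ (dev y') = y'
      filter_upwards [hop.mem_nhds ⟨dev x, mem_ball_self hr, hex⟩] with y' hy' _
      obtain ⟨q, hq, rfl⟩ := hy'
      rw [hsec.inv q hq]
      refine hσ q _ ⟨_, e.symm, hsec, mem_ball_self hr, hex, ?_, ?_⟩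
      · rw [add_sub_cancel]; exact hq
      · rw [add_sub_cancel]
    have hTc : IsClosed T := by
      rw [← closure_subset_iff_isClosed]
      intro y0 hy0
      obtain ⟨e, r, hxe, he, hr, hrt⟩ := exists_sec hloc y0
      have hsec := sec_of_target e he (dev y0) r hrt
      have hex : e.symm (dev y0) = y0 := by rw [he]; exact e.left_inv hxe
      have hop := hsec.isOpen_image hloc isOpen_ball Subset.rfl
      have hN0 := hop.mem_nhds (x := y0) ⟨dev y0, mem_ball_self hr, hex⟩
      obtain ⟨y1, ⟨q10, hq10, rfl⟩, hy1T⟩ := mem_closure_iff_nhds.1 hy0 _ hN0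
      have hc10 : ContinuousAt e.symm q10 :=
        (hsec.cont q10 hq10).continuousAt (isOpen_ball.mem_nhds hq10)
      have hev : ∀ᶠ q in 𝓝 q10, dev (e.symm q) ∈ U → σ (dev (e.symm q)) = e.symm q :=
        hc10.eventually hy1T
      obtain ⟨O1, hO1, hO1o, hO1m⟩ := _root_.eventually_nhds_iff.1
        (hev.and (isOpen_ball.mem_nhds hq10 : ∀ᶠ q in 𝓝 q10, q ∈ ball (dev y0) r))
      obtain ⟨q1, hq1, hq1W⟩ := exists_off hO1o ⟨q10, hO1m⟩ (dev x) hfin hSt
      have hq1G := (hO1 q1 hq1).2
      have hq1U := hoff q1 hq1W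
      have hq1e : e.symm q1 = σ q1 := by
        have := (hO1 q1 hq1).1
        rw [hsec.inv q1 hq1G] at this
        exact (this hq1U).symm
      have hall : ∀ q ∈ ball (dev y0) r, q ∈ U → σ q = e.symm q := by
        intro q hq hqU
        obtain ⟨V, τ, h1, h2, h3⟩ := hlocU q hqU
        obtain ⟨q2, hq2, hq2W⟩ := exists_off (isOpen_ball.inter h1.isOpen) ⟨q, hq, h2⟩ (dev x)
          (hfin.image fun W => W ⊔ Submodule.span ℝ {q1 - dev x}) (by
            rintro _ ⟨W, hW, rfl⟩
            exact sup_span_ne_top (hS W hW) _)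
        have hsegG : segment ℝ q1 q2 ⊆ ball (dev y0) r :=
          (convex_ball _ _).segment_subset hq1G hq2.1
        have hsegU : segment ℝ q1 q2 ⊆ U := fun m hm =>
          hoff m fun W hW => seg_off (hq1W W hW) (hq2W _ ⟨W, hW, rfl⟩) hm
        have heq : EqOn e.symm σ (segment ℝ q1 q2) :=
          (T2Space.isSeparatedMap dev).eqOn_of_comp_eqOn hloc.isLocallyInjective
            (convex_segment q1 q2).isPreconnected (hsec.cont.mono hsegG) (hσc.mono hsegU)
            (fun m hm => by
              simp only [Function.comp_apply]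
              rw [hsec.inv m (hsegG hm), hσi m (hsegU hm)])
            (left_mem_segment ℝ q1 q2) hq1e
        have h4 : e.symm q2 = τ q2 := by
          rw [heq (right_mem_segment ℝ q1 q2)]
          exact (h3 q2 hq2.2).2
        have h5 := hsec.eqOn hloc h1 hq2.1 hq2.2 h4 q hq h2
        rw [(h3 q h2).2, h5]
      show ∀ᶠ y' in 𝓝 y0, dev y' ∈ U → σ (dev y') = y'
      filter_upwards [hN0] with y' hy' hyU
      obtain ⟨q, hq, rfl⟩ := hy'
      rw [hsec.inv q hq] at hyU ⊢
      exact hall q hq hyU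
    have hTu : T = univ := IsClopen.eq_univ ⟨hTc, hTo⟩ hTn
    intro y hy
    have : y ∈ T := by rw [hTu]; trivial
    exact (Eventually.self_of_nhds this) hy
  refine ⟨fun y y' he => ?_, fun q hq => ?_⟩
  · by_contra hne
    obtain ⟨N, N', hN, hN', hyN, hyN', hd⟩ := t2_separation hne
    have hop := hloc.isOpenMap
    obtain ⟨q, ⟨⟨a, ha, haq⟩, ⟨a', ha', haq'⟩⟩, hqW⟩ := exists_off ((hop N hN).inter (hop N' hN'))
      ⟨dev y, ⟨y, hyN, rfl⟩, ⟨y', hyN', he.symm⟩⟩ (dev x) hfin hSt
    have hqU := hoff q hqW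
    have h1 := key a (by rw [haq]; exact hqU)
    have h2 := key a' (by rw [haq']; exact hqU)
    rw [haq] at h1
    rw [haq'] at h2
    have h3 : a = a' := h1.symm.trans h2
    exact (Set.disjoint_left.1 hd ha) (h3 ▸ ha')
  · by_contra hcon
    push Not at hcon
    exact hq ⟨_, hσi q (hoff q hcon)⟩

end

end Pool.Agent.TH569.MK
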