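import Pool.Agent.TH569.MK.Hyper
import Pool.Agent.TH569.MK.Thin
import Pool.Agent.TH569.MK.Fam

/-!
Completeness criteria for closed affine manifolds with parallel volume.
-/

set_option autoImplicit false

open Set Filter Topology Metric

namespace Pool.Agent.TH569.MK

open Pool.Agent.W689.Mk

variable {X Γ E : Type} [TopologicalSpace X] [T2Space X] [Group Γ] [MulAction Γ X]
  [NormedAddCommGroup E] [NormedSpace ℝ E] [FiniteDimensional ℝ E]
  {dev : X → E} {hol : Γ →* (E ≃ᵃ[ℝ] E)}

/-- one point, finitely many subspaces of codimension at least two -/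
theorem thin_complete (D : AffData X Γ E dev hol) [SecondCountableTopology X] [ConnectedSpace X]
    (x : X) {S : Set (Submodule ℝ E)} (hfin : S.Finite)
    (hS : ∀ W ∈ S, Module.finrank ℝ W + 2 ≤ Module.finrank ℝ E)
    (hE : ∀ v, (∀ W ∈ S, v ∉ W) → ∃ y, Ex dev x v y) : IsHomeomorph dev := by
  obtain ⟨hinj, hC⟩ := thin_injective D.loc x hfin hS hE
  have h0 : (range dev)ᶜ = ∅ := by
    refine no_finite_union D (C := (range dev)ᶜ) ?_
      (F := (fun W => AffineSubspace.mk' (dev x) W) '' S) (hfin.image _) ?_ ?_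
    · rintro γ q hq ⟨y, hy⟩
      apply hq
      refine ⟨γ⁻¹ • y, ?_⟩
      rw [D.equi, hy, hol_inv_apply]
    · rintro _ ⟨W, hW, rfl⟩ ht
      have h1 := congrArg AffineSubspace.direction ht
      rw [AffineSubspace.direction_mk', AffineSubspace.direction_top] at h1
      have := hS W hW
      rw [h1, finrank_top] at this
      omega
    · intro q hq
      obtain ⟨W, hW, hqW⟩ := hC q hq
      refine ⟨_, ⟨W, hW, rfl⟩, ?_⟩
      rw [AffineSubspace.mem_mk', vsub_eq_sub]
      exact hqW
  have hsurj : Function.Surjective dev := by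
    rw [← range_eq_univ]
    exact compl_empty_iff.1 h0
  exact ⟨D.loc.continuous, D.loc.isOpenMap, hinj, hsurj⟩

end Pool.Agent.TH569.MK
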