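import Pool.Agent.TH569.MK.Conf

/-!
A hyperplane of directions which are complete at all points.
-/

set_option autoImplicit false

open Set Filter Topology Metric

namespace Pool.Agent.TH569.MK

open Pool.Agent.W689.Mk

section
variable {X Γ E : Type} [TopologicalSpace X] [T2Space X] [Group Γ] [MulAction Γ X]
  [NormedAddCommGroup E] [NormedSpace ℝ E] [FiniteDimensional ℝ E]
  {dev : X → E} {hol : Γ →* (E ≃ᵃ[ℝ] E)}

theorem hyper_complete (D : AffData X Γ E dev hol) [SecondCountableTopology X] [ConnectedSpace X]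
    (L : Submodule ℝ E) (hd : Module.finrank ℝ L + 1 = Module.finrank ℝ E)
    (hL : ∀ x : X, ∀ v ∈ L, ∃ y, Ex dev x v y) : IsHomeomorph dev := by
  have hloc := D.loc
  -- a functional with kernel `L`
  have hLt : L ≠ ⊤ := by
    intro h
    rw [h, finrank_top] at hd
    omega
  obtain ⟨w, hw⟩ : ∃ w, w ∉ L := by
    by_contra hcon
    push Not at hcon
    exact hLt (eq_top_iff.2 fun v _ => hcon v)
  obtain ⟨f, hfw, hfL⟩ := Submodule.exists_le_ker_of_notMem (p := L) hw
  have hker : L = LinearMap.ker f := by
    have h1 : Module.finrank ℝ (LinearMap.ker f) + 1 = Module.finrank ℝ E := by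
      have h2 := LinearMap.finrank_range_add_finrank_ker f
      have h3 : Module.finrank ℝ (LinearMap.range f) = 1 := by
        have h4 : LinearMap.range f = ⊤ := by
          rw [LinearMap.range_eq_top]
          exact LinearMap.surjective (fun h => hfw (by rw [h]; rfl))
        rw [h4, finrank_top, Module.finrank_self]
      omega
    exact Submodule.eq_of_le_of_finrank_eq hfL (by omega)
  by_cases hinv : ∀ γ : Γ, ∀ v ∈ L, lin hol γ v ∈ L
  · have hmem : ∀ v, v ∈ L ↔ f v = 0 := by
      intro v
      rw [hker, LinearMap.mem_ker]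
    let π : E →L[ℝ] ℝ := LinearMap.toContinuousLinearMap f
    have hπ : ∀ v, π v = f v := fun v => rfl
    refine conf_complete D (Q := ℝ) (π := π) ?_ ?_ ?_
    · intro r
      refine ⟨(r / f w) • w, ?_⟩
      rw [hπ, map_smul, smul_eq_mul, div_mul_cancel₀ _ hfw]
    · intro x v hv
      rw [hπ] at hv
      exact hL x v ((hmem v).2 hv)
    · intro γ
      have hc : ∀ v, f (lin hol γ v) = f (lin hol γ w) / f w * f v := by
        intro v
        have h1 : v - (f v / f w) • w ∈ L := by
          rw [hmem, map_sub, map_smul, smul_eq_mul, div_mul_cancel₀ _ hfw, sub_self]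
        have h2 := hinv γ _ h1
        rw [hmem] at h2
        have h3 : lin hol γ (v - (f v / f w) • w) = lin hol γ v - (f v / f w) • lin hol γ w := by
          show (hol γ).linear _ = _
          rw [map_sub, map_smul]
        rw [h3, map_sub, map_smul, smul_eq_mul, sub_eq_zero] at h2
        rw [h2]
        ring
      have hne : f (lin hol γ w) ≠ 0 := by
        intro h0
        have h1 : lin hol γ w ∈ L := (hmem _).2 h0
        have h2 := hinv γ⁻¹ _ h1
        rw [lin_inv_apply] at h2
        exact hw h2
      refine ⟨|f (lin hol γ w) / f w|, abs_pos.2 (div_ne_zero hne hfw), fun v => ?_⟩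
      rw [hπ, hπ, hc, norm_mul, Real.norm_eq_abs, Real.norm_eq_abs]
  · push Not at hinv
    obtain ⟨γ, v0, hv0, hw0⟩ := hinv
    obtain ⟨w0, hw0d⟩ : ∃ w0, w0 = lin hol γ v0 := ⟨_, rfl⟩
    rw [← hw0d] at hw0
    have h1 : ∀ (x : X) (t : ℝ), ∃ z, Ex dev x (t • w0) z := by
      intro x t
      obtain ⟨y, hy⟩ := hL (γ⁻¹ • x) (t • v0) (L.smul_mem t hv0)
      have h2 := D.Ex_smul γ hy
      rw [smul_inv_smul] at h2
      have h3 : lin hol γ (t • v0) = t • w0 := by
        rw [hw0d]
        exact (hol γ).linear.map_smul _ _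
      rw [h3] at h2
      exact ⟨_, h2⟩
    have hf0 : f w0 ≠ 0 := by
      intro h
      apply hw0
      rw [hker]
      exact h
    obtain ⟨x⟩ := (inferInstance : Nonempty X)
    refine homeo_of_all hloc (x := x) fun v => ?_
    have h4 : v - (f v / f w0) • w0 ∈ L := by
      rw [hker, LinearMap.mem_ker, map_sub, map_smul, smul_eq_mul, div_mul_cancel₀ _ hf0, sub_self]
    obtain ⟨y, hy⟩ := hL x _ h4
    have h5 := ex_add hloc hy (l := (f v / f w0) • w0) fun y t => by
      rw [smul_smul]
      exact h1 y _
    rwa [sub_add_cancel] at h5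

end

end Pool.Agent.TH569.MK
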